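import Mathlib

set_option autoImplicit false

open MeasureTheory

namespace Pool.Agent.Lib.MP_45e1c4_co

/-- A label: a clock in the unit interval and a favourite colour. -/
abbrev Lab := unitInterval × Fin 3
/-- A message: the time at which a vertex is coloured, and its colour. -/
abbrev Msg := ℝ × Fin 3

/-- The colour `k` is seen by time `s`. -/
def Seen {ι : Type*} (m : ι → Msg) (s : ℝ) (k : Fin 3) : Prop :=
  ∃ i, (m i).1 ≤ s ∧ (m i).2 = k

/-- Two different colours are seen by time `s`. -/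
def Two {ι : Type*} (m : ι → Msg) (s : ℝ) : Prop :=
  ∃ i j, (m i).1 ≤ s ∧ (m j).1 ≤ s ∧ (m i).2 ≠ (m j).2

/-- The first time at which two different colours are seen (or `2`). -/
noncomputable def sig {ι : Type*} [Fintype ι] [Nonempty ι] (m : ι → Msg) : ℝ :=
  Finset.univ.inf' Finset.univ_nonempty
    (fun p : ι × ι => if (m p.1).2 ≠ (m p.2).2 then max (m p.1).1 (m p.2).1 else 2)

open Classical in
/-- The colour taken: the favourite colour if no colour is seen, otherwise a colour not seen. -/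
noncomputable def pick (c : Fin 3) (h : Fin 3 → Prop) : Fin 3 :=
  if ¬ h 0 ∧ h 2 then 0 else if ¬ h 1 ∧ h 0 then 1 else if ¬ h 2 ∧ h 1 then 2 else c

/-- The update rule. -/
noncomputable def F {ι : Type*} [Fintype ι] [Nonempty ι] (l : Lab) (m : ι → Msg) : Msg :=
  (min (l.1 : ℝ) (sig m), pick l.2 (Seen m (min (l.1 : ℝ) (sig m))))

section det

variable {ι κ : Type*} [Fintype ι] [Nonempty ι] [Fintype κ] [Nonempty κ]

lemma sig_le_iff (m : ι → Msg) {s : ℝ} (hs : s < 2) : sig m ≤ s ↔ Two m s := by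
  unfold sig Two
  rw [Finset.inf'_le_iff]
  constructor
  · rintro ⟨⟨i, j⟩, -, h⟩
    split_ifs at h with hij
    · exact ⟨i, j, le_trans (le_max_left _ _) h, le_trans (le_max_right _ _) h, hij⟩
    · exact absurd h (not_le.mpr hs)
  · rintro ⟨i, j, hi, hj, hij⟩
    refine ⟨(i, j), Finset.mem_univ _, ?_⟩
    rw [if_pos hij]
    exact max_le hi hj

lemma F_fst_le_one (l : Lab) (m : ι → Msg) : (F l m).1 ≤ 1 :=
  le_trans (min_le_left _ _) l.1.2.2

lemma F_le_iff (l : Lab) (m : ι → Msg) {s : ℝ} (hs : s < 2) :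
    (F l m).1 ≤ s ↔ (l.1 : ℝ) ≤ s ∨ Two m s := by
  unfold F
  simp only [min_le_iff, sig_le_iff m hs]

lemma pick_not_mem (c : Fin 3) (h : Fin 3 → Prop) (h1 : ∃ k, h k)
    (h2 : ¬ (h 0 ∧ h 1 ∧ h 2)) : ¬ h (pick c h) := by
  classical
  unfold pick
  obtain ⟨k, hk⟩ := h1
  fin_cases k <;> simp only [Fin.zero_eta, Fin.mk_one, Fin.reduceFinMk] at hk <;>
  · by_cases a0 : h 0 <;> by_cases a1 : h 1 <;> by_cases a2 : h 2 <;> simp_all

lemma pick_rot (c : Fin 3) (h h' : Fin 3 → Prop) (hh : ∀ k, h' (k + 1) ↔ h k) :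
    pick (c + 1) h' = pick c h + 1 := by
  classical
  have e0 : h' 1 ↔ h 0 := by simpa using hh 0
  have e1 : h' 2 ↔ h 1 := by simpa using hh 1
  have e2 : h' 0 ↔ h 2 := by simpa using hh 2
  unfold pick
  by_cases a0 : h 0 <;> by_cases a1 : h 1 <;> by_cases a2 : h 2 <;>
    simp only [e0, e1, e2, a0, a1, a2, not_true_eq_false, not_false_eq_true, and_true, and_false,
      false_and, true_and, if_true, if_false] <;> rfl

lemma pick_congr (c : Fin 3) (h h' : Fin 3 → Prop) (hh : ∀ k, h' k ↔ h k) :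
    pick c h' = pick c h := by
  have : h' = h := funext fun k => propext (hh k)
  rw [this]

/-- Two evaluations agree up to time `a`. -/
def Ag (a : ℝ) (m m' : Msg) : Prop := (m.1 ≤ a ∨ m'.1 ≤ a) → m = m'

lemma Ag.mono {a b : ℝ} (hab : a ≤ b) {m m' : Msg} (h : Ag b m m') : Ag a m m' := by
  intro h1
  exact h (h1.imp (fun h => h.trans hab) (fun h => h.trans hab))

lemma Ag.symm {a : ℝ} {m m' : Msg} (h : Ag a m m') : Ag a m' m := fun h1 => (h h1.symm).symm

lemma two_iff_of_ag {s s' : ℝ} (hs : s' ≤ s) {m m' : ι → Msg} (h : ∀ i, Ag s (m i) (m' i)) :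
    Two m s' ↔ Two m' s' := by
  constructor
  · rintro ⟨i, j, hi, hj, hij⟩
    have e1 := h i (Or.inl (hi.trans hs))
    have e2 := h j (Or.inl (hj.trans hs))
    exact ⟨i, j, by rwa [← e1], by rwa [← e2], by rwa [← e1, ← e2]⟩
  · rintro ⟨i, j, hi, hj, hij⟩
    have e1 := h i (Or.inr (hi.trans hs))
    have e2 := h j (Or.inr (hj.trans hs))
    exact ⟨i, j, by rwa [e1], by rwa [e2], by rwa [e1, e2]⟩

lemma seen_iff_of_ag {s s' : ℝ} (hs : s' ≤ s) {m m' : ι → Msg} (h : ∀ i, Ag s (m i) (m' i))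
    (k : Fin 3) : Seen m s' k ↔ Seen m' s' k := by
  constructor
  · rintro ⟨i, hi, hk⟩
    have e1 := h i (Or.inl (hi.trans hs))
    exact ⟨i, by rwa [← e1], by rwa [← e1]⟩
  · rintro ⟨i, hi, hk⟩
    have e1 := h i (Or.inr (hi.trans hs))
    exact ⟨i, by rwa [e1], by rwa [e1]⟩

/-- The general comparison principle: if `m`, `m'` (over possibly different index types) give the
same answers up to time `s`, then the updates agree if one of them happens before `s`. -/
lemma F_eq_of_agree (l : Lab) (m : ι → Msg) (m' : κ → Msg) {s : ℝ}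
    (h2 : ∀ s' ≤ s, s' < 2 → (Two m s' ↔ Two m' s'))
    (h1 : ∀ s' ≤ s, ∀ k, (Seen m s' k ↔ Seen m' s' k))
    (hs : (F l m).1 ≤ s) : F l m = F l m' := by
  have hm2 : (F l m).1 < 2 := lt_of_le_of_lt (F_fst_le_one l m) (by norm_num)
  have key : ∀ s' ≤ s, s' < 2 → ((F l m).1 ≤ s' ↔ (F l m').1 ≤ s') := by
    intro s' hs' hs2
    rw [F_le_iff l m hs2, F_le_iff l m' hs2, h2 s' hs' hs2]
  have a1 : (F l m').1 ≤ (F l m).1 := (key _ hs hm2).1 le_rfl
  have hm2' : (F l m').1 < 2 := lt_of_le_of_lt a1 hm2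
  have a2 : (F l m).1 ≤ (F l m').1 := (key _ (a1.trans hs) hm2').2 le_rfl
  have e : (F l m).1 = (F l m').1 := le_antisymm a2 a1
  refine Prod.ext e ?_
  have e' : min (l.1 : ℝ) (sig m) = min (l.1 : ℝ) (sig m') := e
  have hs' : min (l.1 : ℝ) (sig m) ≤ s := hs
  change pick l.2 (Seen m (min (l.1 : ℝ) (sig m))) = pick l.2 (Seen m' (min (l.1 : ℝ) (sig m')))
  rw [← e']
  exact (pick_congr _ _ _ (fun k => h1 _ hs' k)).trans rfl

lemma ag_F {s : ℝ} (l : Lab) {m m' : ι → Msg} (h : ∀ i, Ag s (m i) (m' i)) :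
    Ag s (F l m) (F l m') := by
  rintro (h1 | h1)
  · exact F_eq_of_agree l m m' (fun s' hs' _ => two_iff_of_ag hs' h)
      (fun s' hs' k => seen_iff_of_ag hs' h k) h1
  · exact (F_eq_of_agree l m' m (fun s' hs' _ => (two_iff_of_ag hs' h).symm)
      (fun s' hs' k => (seen_iff_of_ag hs' h k).symm) h1).symm

lemma F_rot (l : Lab) (m : ι → Msg) :
    F (l.1, l.2 + 1) (fun i => ((m i).1, (m i).2 + 1)) = ((F l m).1, (F l m).2 + 1) := by
  have h1 : sig (fun i => ((m i).1, (m i).2 + 1)) = sig m := by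
    unfold sig
    simp
  unfold F
  refine Prod.ext ?_ ?_
  · simp [h1]
  · simp only [h1]
    apply pick_rot
    intro k
    unfold Seen
    simp

end det

end Pool.Agent.Lib.MP_45e1c4_co
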