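import Mathlib
import Pool.Agent.Lib.MP_45e1c4_co.Basic

set_option autoImplicit false

open MeasureTheory

namespace Pool.Agent.Lib.MP_45e1c4_co

section proper

variable {ι κ : Type*} [Fintype ι] [Nonempty ι] [Fintype κ] [Nonempty κ]

omit [Fintype ι] [Nonempty ι] [Fintype κ] [Nonempty κ] in
lemma two_comp_iff {m : ι → Msg} {e : κ → ι} {s : ι} (he : ∀ r, r ≠ s → ∃ k, e k = r)
    {t : ℝ} (ht : t < (m s).1) : Two m t ↔ Two (m ∘ e) t := by
  constructor
  · rintro ⟨i, j, hi, hj, hij⟩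
    have h1 : i ≠ s := by rintro rfl; exact absurd hi (not_le.mpr ht)
    have h2 : j ≠ s := by rintro rfl; exact absurd hj (not_le.mpr ht)
    obtain ⟨i', rfl⟩ := he i h1
    obtain ⟨j', rfl⟩ := he j h2
    exact ⟨i', j', hi, hj, hij⟩
  · rintro ⟨i, j, hi, hj, hij⟩
    exact ⟨e i, e j, hi, hj, hij⟩

omit [Fintype ι] [Nonempty ι] [Fintype κ] [Nonempty κ] in
lemma seen_comp_iff {m : ι → Msg} {e : κ → ι} {s : ι} (he : ∀ r, r ≠ s → ∃ k, e k = r)
    {t : ℝ} (ht : t < (m s).1) (c : Fin 3) : Seen m t c ↔ Seen (m ∘ e) t c := by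
  constructor
  · rintro ⟨i, hi, hj⟩
    have h1 : i ≠ s := by rintro rfl; exact absurd hi (not_le.mpr ht)
    obtain ⟨i', rfl⟩ := he i h1
    exact ⟨i', hi, hj⟩
  · rintro ⟨i, hi, hj⟩
    exact ⟨e i, hi, hj⟩

/-- If the message from `s` arrives late, it does not matter. -/
lemma F_late (l : Lab) {m : ι → Msg} {e : κ → ι} {s : ι} (he : ∀ r, r ≠ s → ∃ k, e k = r)
    (h : (F l (m ∘ e)).1 < (m s).1) : F l m = F l (m ∘ e) := by
  symm
  apply F_eq_of_agree l (m ∘ e) m (s := (F l (m ∘ e)).1)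
  · intro s' hs' _
    exact (two_comp_iff he (lt_of_le_of_lt hs' h)).symm
  · intro s' hs' k
    exact (seen_comp_iff he (lt_of_le_of_lt hs' h) k).symm
  · exact le_rfl

/-- If the message from `s` arrives before the update without `s`, it is taken into account. -/
lemma F_early (l : Lab) {m : ι → Msg} {e : κ → ι} {s : ι} (he : ∀ r, r ≠ s → ∃ k, e k = r)
    (h : (m s).1 < (F l (m ∘ e)).1) : (m s).1 ≤ (F l m).1 := by
  by_contra hc
  push Not at hc
  have := F_eq_of_agree l m (m ∘ e) (s := (F l m).1)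
    (fun s' hs' _ => two_comp_iff he (lt_of_le_of_lt hs' hc))
    (fun s' hs' k => seen_comp_iff he (lt_of_le_of_lt hs' hc) k) le_rfl
  rw [← this] at h
  exact absurd h (not_lt.mpr hc.le)

/-- Without ties, at most two colours are seen at the time of the update. -/
lemma not_three (l : Lab) {m : ι → Msg}
    (hm : ∀ i j, i ≠ j → (m i).1 ≤ 1 → (m i).1 ≠ (m j).1) :
    ¬ (Seen m (F l m).1 0 ∧ Seen m (F l m).1 1 ∧ Seen m (F l m).1 2) := by
  rintro ⟨⟨i0, h0, c0⟩, ⟨i1, h1, c1⟩, ⟨i2, h2, c2⟩⟩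
  have hF := F_fst_le_one l m
  have n01 : i0 ≠ i1 := by rintro rfl; rw [c0] at c1; exact absurd c1 (by decide)
  have n02 : i0 ≠ i2 := by rintro rfl; rw [c0] at c2; exact absurd c2 (by decide)
  have n12 : i1 ≠ i2 := by rintro rfl; rw [c1] at c2; exact absurd c2 (by decide)
  have t01 := hm i0 i1 n01 (h0.trans hF)
  have t02 := hm i0 i2 n02 (h0.trans hF)
  have t12 := hm i1 i2 n12 (h1.trans hF)
  have key : ∀ i j, (m i).1 < (F l m).1 → (m j).1 < (F l m).1 → (m i).2 = (m j).2 := by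
    intro i j hi hj
    by_contra hne
    have hlt : max (m i).1 (m j).1 < (F l m).1 := max_lt hi hj
    have h2' : max (m i).1 (m j).1 < 2 := lt_of_lt_of_le hlt (hF.trans (by norm_num))
    have := (F_le_iff l m h2').2 (Or.inr ⟨i, j, le_max_left _ _, le_max_right _ _, hne⟩)
    exact absurd this (not_le.mpr hlt)
  rcases lt_or_ge (m i0).1 (F l m).1 with a0 | a0
  · rcases lt_or_ge (m i1).1 (F l m).1 with a1 | a1
    · have := key i0 i1 a0 a1
      rw [c0, c1] at this; exact absurd this (by decide)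
    · rcases lt_or_ge (m i2).1 (F l m).1 with a2 | a2
      · have := key i0 i2 a0 a2
        rw [c0, c2] at this; exact absurd this (by decide)
      · exact t12 (le_antisymm (h1.trans a2) (h2.trans a1))
  · rcases lt_or_ge (m i1).1 (F l m).1 with a1 | a1
    · rcases lt_or_ge (m i2).1 (F l m).1 with a2 | a2
      · have := key i1 i2 a1 a2
        rw [c1, c2] at this; exact absurd this (by decide)
      · exact t02 (le_antisymm (h0.trans a2) (h2.trans a0))
    · exact t01 (le_antisymm (h0.trans a1) (h1.trans a0))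

lemma F_early_color (l : Lab) {m : ι → Msg} {e : κ → ι} {s : ι}
    (he : ∀ r, r ≠ s → ∃ k, e k = r)
    (hm : ∀ i j, i ≠ j → (m i).1 ≤ 1 → (m i).1 ≠ (m j).1)
    (h : (m s).1 < (F l (m ∘ e)).1) : (F l m).2 ≠ (m s).2 := by
  have h1 := F_early l he h
  have h2 : Seen m (F l m).1 (m s).2 := ⟨s, h1, rfl⟩
  have h3 := pick_not_mem l.2 (Seen m (F l m).1) ⟨_, h2⟩ (not_three l hm)
  intro h4
  apply h3
  have : pick l.2 (Seen m (F l m).1) = (F l m).2 := rfl
  rw [this, h4]
  exact h2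

/-- The colouring rule is proper across an edge, if the messages on this edge are consistent. -/
lemma proper_edge (l l' : Lab) {m m' : ι → Msg} {e e' : κ → ι} {s s' : ι}
    (he : ∀ r, r ≠ s → ∃ k, e k = r) (he' : ∀ r, r ≠ s' → ∃ k, e' k = r)
    (hm : ∀ i j, i ≠ j → (m i).1 ≤ 1 → (m i).1 ≠ (m j).1)
    (hm' : ∀ i j, i ≠ j → (m' i).1 ≤ 1 → (m' i).1 ≠ (m' j).1)
    (h1 : m s = F l' (m' ∘ e')) (h2 : m' s' = F l (m ∘ e))
    (hne : (F l (m ∘ e)).1 ≠ (F l' (m' ∘ e')).1) : (F l m).2 ≠ (F l' m').2 := by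
  rcases lt_or_gt_of_ne hne with h | h
  · have a1 : F l m = F l (m ∘ e) := F_late l he (by rw [h1]; exact h)
    have a2 := F_early_color l' he' hm' (by rw [h2]; exact h)
    rw [a1, ← h2]
    exact a2.symm
  · have a1 : F l' m' = F l' (m' ∘ e') := F_late l' he' (by rw [h2]; exact h)
    have a2 := F_early_color l he hm (by rw [h1]; exact h)
    rw [a1, ← h1]
    exact a2

end proper

end Pool.Agent.Lib.MP_45e1c4_co
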