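import Mathlib

set_option autoImplicit false

namespace Pool.Agent.Lib.MP_45e1c4_co

/-- The polynomial governing the density of uncoloured vertices. -/
noncomputable def g (p : ℝ) : ℝ := 1 / 9 + 2 / 3 * p + 4 / 3 * p ^ 2 - 10 / 9 * p ^ 3

lemma g_one : g 1 = 1 := by unfold g; norm_num

lemma g_pos {p : ℝ} (h0 : 0 ≤ p) (h1 : p ≤ 1) : 0 < g p := by
  unfold g
  nlinarith [mul_nonneg h0 (mul_nonneg h0 (sub_nonneg.mpr h1)), mul_nonneg h0 h0]

lemma g_mono {u v : ℝ} (h0 : 0 ≤ v) (h1 : v ≤ u) (h2 : u ≤ 1) : g v ≤ g u := by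
  have hu : 0 ≤ u := h0.trans h1
  have hv : v ≤ 1 := h1.trans h2
  have key : 0 ≤ (u - v) * (2 / 3 + 4 / 3 * (u + v) - 10 / 9 * (u ^ 2 + u * v + v ^ 2)) := by
    apply mul_nonneg (sub_nonneg.mpr h1)
    nlinarith [mul_nonneg hu (sub_nonneg.mpr h2), mul_nonneg h0 (sub_nonneg.mpr hv),
      mul_nonneg h0 (sub_nonneg.mpr h2), mul_nonneg hu (sub_nonneg.mpr hv)]
  unfold g
  nlinarith [key]

lemma g_le_one {p : ℝ} (h0 : 0 ≤ p) (h1 : p ≤ 1) : g p ≤ 1 := by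
  have := g_mono h0 h1 le_rfl
  rwa [g_one] at this

/-- The key inequality: the cascades are subcritical. -/
lemma key_ineq {u v : ℝ} (h0 : 0 ≤ v) (hv : v ≤ 1) :
    v * (2 / 3 + 4 / 3 * (u + v) - 10 / 9 * (u ^ 2 + u * v + v ^ 2)) ≤ 19 / 20 * g v := by
  unfold g
  have h1 : 0 ≤ 17 / 10 - v := by linarith
  nlinarith [mul_nonneg h0 (sq_nonneg (u + v / 2 - 3 / 5)), mul_nonneg h1 (sq_nonneg (v - 1 / 2))]

lemma contr {s u v : ℝ} (hs : 0 ≤ s) (h0 : 0 ≤ v) (h1 : v ≤ u) (h2 : u ≤ 1)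
    (h : s * g v ≤ v) : s * (g u - g v) ≤ 19 / 20 * (u - v) := by
  have hv : v ≤ 1 := h1.trans h2
  have hg := g_pos h0 hv
  have hu : 0 ≤ u := h0.trans h1
  set q := 2 / 3 + 4 / 3 * (u + v) - 10 / 9 * (u ^ 2 + u * v + v ^ 2) with hq
  have hq0 : 0 ≤ q := by
    rw [hq]
    nlinarith [mul_nonneg hu (sub_nonneg.mpr h2), mul_nonneg h0 (sub_nonneg.mpr hv),
      mul_nonneg h0 (sub_nonneg.mpr h2), mul_nonneg hu (sub_nonneg.mpr hv)]
  have e : g u - g v = (u - v) * q := by rw [hq]; unfold g; ring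
  have k : v * q ≤ 19 / 20 * g v := key_ineq h0 hv
  have h3 : s * q ≤ 19 / 20 := by
    by_contra hc
    push Not at hc
    have h4 : s * g v * q ≤ v * q := mul_le_mul_of_nonneg_right h hq0
    nlinarith
  rw [e]
  have h5 : (s * q) * (u - v) ≤ 19 / 20 * (u - v) :=
    mul_le_mul_of_nonneg_right h3 (sub_nonneg.mpr h1)
  linarith

lemma contr' {s q : ℝ} (h0 : 0 ≤ q) (h1 : q ≤ 1) (h : s * g q ≤ q) (hs : 0 ≤ s) :
    s * (2 / 3 * (1 - q) * (1 + 5 * q)) ≤ 19 / 20 := by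
  have hg := g_pos h0 h1
  have k := key_ineq (u := q) h0 h1
  have e : 2 / 3 + 4 / 3 * (q + q) - 10 / 9 * (q ^ 2 + q * q + q ^ 2)
    = 2 / 3 * (1 - q) * (1 + 5 * q) := by ring
  rw [e] at k
  have hq0 : 0 ≤ 2 / 3 * (1 - q) * (1 + 5 * q) := by
    apply mul_nonneg (by linarith) (by linarith)
  by_contra hc
  push Not at hc
  have h4 := mul_le_mul_of_nonneg_right h hq0
  nlinarith

lemma summable_of_rec {w e : ℕ → ℝ} {ρ C : ℝ} (hw : ∀ n, 0 ≤ w n) (he : ∀ n, 0 ≤ e n)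
    (hρ1 : ρ < 1) (hC : 0 ≤ C) (hrec : ∀ n, w (n + 1) ≤ ρ * w n + C * e n)
    (hs : Summable e) : Summable w := by
  have hE : ∀ N, ∑ n ∈ Finset.range N, e n ≤ ∑' n, e n := fun N =>
    hs.sum_le_tsum _ (fun i _ => he i)
  apply summable_of_sum_range_le (c := (w 0 + C * ∑' n, e n) / (1 - ρ)) hw
  intro N
  rw [le_div_iff₀ (by linarith)]
  have h1 : ∑ n ∈ Finset.range (N + 1), w n
      ≤ w 0 + (ρ * ∑ n ∈ Finset.range N, w n + C * ∑ n ∈ Finset.range N, e n) := by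
    rw [Finset.sum_range_succ', add_comm, Finset.mul_sum, Finset.mul_sum, ← Finset.sum_add_distrib]
    have := Finset.sum_le_sum (s := Finset.range N) (fun n _ => hrec n)
    linarith
  have h2 : ∑ n ∈ Finset.range N, w n ≤ ∑ n ∈ Finset.range (N + 1), w n := by
    rw [Finset.sum_range_succ]
    linarith [hw N]
  have h3 := mul_le_mul_of_nonneg_left (hE N) hC
  linarith

end Pool.Agent.Lib.MP_45e1c4_co
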