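import Mathlib
import Pool.Agent.Lib.MP_45e1c4_co.Basic

set_option autoImplicit false

open MeasureTheory

namespace Pool.Agent.Lib.MP_45e1c4_co

section meas

variable {ι X : Type*} [Fintype ι] [Nonempty ι] [MeasurableSpace X]

lemma measurable_sig {m : X → ι → Msg} (hm : Measurable m) : Measurable (fun x => sig (m x)) := by
  classical
  have h : ∀ p : ι × ι, Measurable
      (fun x => if (m x p.1).2 ≠ (m x p.2).2 then max (m x p.1).1 (m x p.2).1 else (2 : ℝ)) := by
    intro p
    have h1 : Measurable (fun x => m x p.1) := (measurable_pi_iff.1 hm) p.1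
    have h2 : Measurable (fun x => m x p.2) := (measurable_pi_iff.1 hm) p.2
    refine Measurable.ite ?_ (h1.fst.max h2.fst) measurable_const
    exact (measurableSet_eq_fun h1.snd h2.snd).compl
  refine measurable_of_Iic fun s => ?_
  have h3 : (fun x => sig (m x)) ⁻¹' Set.Iic s = ⋃ p : ι × ι,
      {x | (if (m x p.1).2 ≠ (m x p.2).2 then max (m x p.1).1 (m x p.2).1 else (2 : ℝ)) ≤ s} := by
    ext x
    simp only [Set.mem_preimage, Set.mem_Iic, sig, Finset.inf'_le_iff, Finset.mem_univ, true_and,
      Set.mem_iUnion, Set.mem_setOf_eq]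
  rw [h3]
  exact MeasurableSet.iUnion fun p => measurableSet_le (h p) measurable_const

lemma measurableSet_seen {m : X → ι → Msg} (hm : Measurable m) {t : X → ℝ} (ht : Measurable t)
    (k : Fin 3) : MeasurableSet {x | Seen (m x) (t x) k} := by
  have : {x | Seen (m x) (t x) k} = ⋃ i, ({x | (m x i).1 ≤ t x} ∩ {x | (m x i).2 = k}) := by
    ext x
    simp [Seen]
  rw [this]
  refine MeasurableSet.iUnion fun i => ?_
  have h1 : Measurable (fun x => m x i) := (measurable_pi_iff.1 hm) i
  exact (measurableSet_le h1.fst ht).inter (h1.snd (measurableSet_singleton k))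

lemma measurable_F {l : X → Lab} (hl : Measurable l) {m : X → ι → Msg} (hm : Measurable m) :
    Measurable (fun x => F (l x) (m x)) := by
  classical
  have h1 : Measurable (fun x => min ((l x).1 : ℝ) (sig (m x))) :=
    (measurable_subtype_coe.comp hl.fst).min (measurable_sig hm)
  have hs : ∀ k, MeasurableSet {x | Seen (m x) (min ((l x).1 : ℝ) (sig (m x))) k} :=
    fun k => measurableSet_seen hm h1 k
  unfold F
  refine h1.prodMk ?_
  unfold pick
  refine Measurable.ite ((hs 0).compl.inter (hs 2)) measurable_const ?_
  refine Measurable.ite ((hs 1).compl.inter (hs 0)) measurable_const ?_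
  exact Measurable.ite ((hs 2).compl.inter (hs 1)) measurable_const hl.snd

end meas

end Pool.Agent.Lib.MP_45e1c4_co
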