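import Mathlib
import Pool.Agent.Lib.MP_45e1c4_co.Basic
import Pool.Agent.Lib.MP_45e1c4_co.Meas

set_option autoImplicit false

open MeasureTheory

namespace Pool.Agent.Lib.MP_45e1c4_co

/-- The uniform measure on three colours. -/
noncomputable def unif : Measure (Fin 3) := (3 : ENNReal)⁻¹ • Measure.count

instance : IsProbabilityMeasure unif := ⟨by
  unfold unif
  rw [Measure.smul_apply, Measure.count_univ]
  simp
  exact ENNReal.inv_mul_cancel (by norm_num) (by norm_num)⟩

lemma unif_rot : MeasurePreserving (fun c : Fin 3 => c + 1) unif unif := by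
  refine ⟨measurable_of_finite _, ?_⟩
  ext s hs
  rw [Measure.map_apply (measurable_of_finite _) hs]
  unfold unif
  simp only [Measure.smul_apply]
  congr 1
  have h : (fun c : Fin 3 => c + 1) ⁻¹' s = (fun c : Fin 3 => c - 1) '' s := by
    ext x
    simp only [Set.mem_preimage, Set.mem_image]
    constructor
    · intro h; exact ⟨x + 1, h, by simp⟩
    · rintro ⟨y, hy, rfl⟩; simpa using hy
  rw [h, Measure.count_injective_image (sub_left_injective) s]

/-- The law of a label. -/
noncomputable def nu : Measure Lab := (volume : Measure unitInterval).prod unif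

instance : IsProbabilityMeasure nu := by unfold nu; infer_instance

/-- Labelings of the rooted ternary tree. -/
abbrev TT := List (Fin 3) → Lab

noncomputable def mu : Measure TT := Measure.infinitePi (fun _ : List (Fin 3) => nu)

instance : IsProbabilityMeasure mu := by unfold mu; infer_instance

/-- The finite-depth evaluations. -/
noncomputable def M : ℕ → TT → Msg
  | 0, L => (2, (L []).2)
  | n + 1, L => F (L []) (fun i => M n (fun v => L (i :: v)))

lemma measurable_M (n : ℕ) : Measurable (M n) := by
  induction n with
  | zero => exact measurable_const.prodMk (measurable_pi_apply []).snd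
  | succ n ih =>
    refine measurable_F (measurable_pi_apply []) ?_
    rw [measurable_pi_iff]
    intro i
    exact ih.comp (measurable_pi_iff.2 fun v => measurable_pi_apply (i :: v))

/-- The index types of the decomposition at the root. -/
def KK : Option (Fin 3) → Type
  | none => Unit
  | some _ => List (Fin 3)

def ff : (Σ o, KK o) → List (Fin 3)
  | ⟨none, _⟩ => []
  | ⟨some i, v⟩ => i :: (show List (Fin 3) from v)

lemma ff_inj : Function.Injective ff := by
  rintro ⟨o, x⟩ ⟨o', x'⟩ h
  cases o with
  | none =>
    cases o' with
    | none =>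
      have : x = x' := Subsingleton.elim (α := Unit) x x'
      rw [this]
    | some j => exact absurd h (by simp [ff])
  | some i =>
    cases o' with
    | none => exact absurd h (by simp [ff])
    | some j =>
      have h' : i :: (show List (Fin 3) from x) = j :: (show List (Fin 3) from x') := h
      obtain ⟨h1, h2⟩ := List.cons.inj h'
      subst h1
      rw [show x = x' from h2]

/-- The rectangle formula. -/
lemma rect {T : Set Lab} (hT : MeasurableSet T) {S : Fin 3 → Set TT}
    (hS : ∀ i, MeasurableSet (S i)) :
    mu {L | L [] ∈ T ∧ ∀ i, (fun v => L (i :: v)) ∈ S i} = nu T * ∏ i, mu (S i) := by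
  have h1 : mu.map (fun L (p : Σ o, KK o) => L (ff p))
      = Measure.infinitePi (fun _ : (Σ o, KK o) => nu) :=
    Measure.map_infinitePi_infinitePi_of_inj (P := fun _ => nu) ff_inj
  have h2 := Measure.infinitePi_map_piCurry (ι := Option (Fin 3)) (κ := KK)
    (X := fun _ _ => Lab) (fun _ _ => nu)
  rw [← h1, Measure.map_map (by fun_prop) (by fun_prop)] at h2
  let t : (o : Option (Fin 3)) → Set (KK o → Lab) := fun o =>
    match o with
    | none => {g | g () ∈ T}
    | some i => S i
  have ht : ∀ o, MeasurableSet (t o) := by
    intro o
    cases o with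
    | none => exact (measurable_pi_apply (X := fun _ : Unit => Lab) ()) hT
    | some i => exact hS i
  have h3 : (Measure.infinitePi fun o : Option (Fin 3) => Measure.infinitePi fun _ : KK o => nu)
      (Set.univ.pi t) = ∏ o, (Measure.infinitePi fun _ : KK o => nu) (t o) := by
    rw [Measure.infinitePi_eq_pi, Measure.pi_pi]
  rw [← h2, Measure.map_apply (by fun_prop) (MeasurableSet.univ_pi ht),
    Fintype.prod_option] at h3
  have h4 : (Measure.infinitePi fun _ : KK none => nu) (t none) = nu T :=
    (measurePreserving_eval_infinitePi (fun _ : Unit => nu) ()).measure_preimage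
      hT.nullMeasurableSet
  rw [h4] at h3
  rw [show (∏ i, mu (S i)) = ∏ i : Fin 3, (Measure.infinitePi fun _ : KK (some i) => nu)
    (t (some i)) from rfl, ← h3]
  congr 1
  ext L
  simp only [Set.mem_ofPred_eq, Set.mem_preimage, Set.mem_univ_pi, Option.forall,
    Function.comp_apply]
  rfl

end Pool.Agent.Lib.MP_45e1c4_co
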