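import Mathlib
import Pool.Agent.Lib.MP_45e1c4_co.Tree
import Pool.Agent.Lib.MP_45e1c4_co.Real

set_option autoImplicit false

open MeasureTheory

namespace Pool.Agent.Lib.MP_45e1c4_co

/-- The labeling of the `j`-th branch. -/
def br (j : Fin 3) (L : TT) : TT := fun v => L (j :: v)

lemma measurable_br (j : Fin 3) : Measurable (br j) :=
  measurable_pi_iff.2 fun v => measurable_pi_apply (j :: v)

lemma M_succ (n : ℕ) (L : TT) : M (n + 1) L = F (L []) (fun i => M n (br i L)) := rfl

lemma rect_real {T : Set Lab} (hT : MeasurableSet T) {S : Fin 3 → Set TT}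
    (hS : ∀ i, MeasurableSet (S i)) :
    mu.real {L | L [] ∈ T ∧ ∀ i, br i L ∈ S i} = nu.real T * ∏ i, mu.real (S i) := by
  have := rect hT hS
  simp only [Measure.real]
  change (mu {L | L [] ∈ T ∧ ∀ i, (fun v => L (i :: v)) ∈ S i}).toReal = _
  rw [this, ENNReal.toReal_mul, ENNReal.toReal_prod]

lemma box3 {T : Set Lab} (hT : MeasurableSet T) {S0 S1 S2 : Set TT}
    (h0 : MeasurableSet S0) (h1 : MeasurableSet S1) (h2 : MeasurableSet S2) :
    mu.real {L | L [] ∈ T ∧ br 0 L ∈ S0 ∧ br 1 L ∈ S1 ∧ br 2 L ∈ S2}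
      = nu.real T * (mu.real S0 * mu.real S1 * mu.real S2) := by
  have hS : ∀ i, MeasurableSet ((![S0, S1, S2] : Fin 3 → Set TT) i) := by
    intro i; fin_cases i
    · exact h0
    · exact h1
    · exact h2
  have := rect_real hT hS
  rw [Fin.prod_univ_three] at this
  simp only [Matrix.cons_val_zero, Matrix.cons_val_one, Matrix.cons_val] at this
  rw [← this]
  congr 1
  ext L
  simp only [Set.mem_ofPred_eq, Fin.forall_fin_succ, Matrix.cons_val_zero, Fin.succ_zero_eq_one,
    Matrix.cons_val_one, Fin.succ_one_eq_two, Matrix.cons_val, IsEmpty.forall_iff, and_true]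

/-- The law of the clock. -/
lemma nu_gt {a : ℝ} (h0 : 0 ≤ a) (h1 : a ≤ 1) : nu.real {l : Lab | a < (l.1 : ℝ)} = 1 - a := by
  have e : {l : Lab | a < (l.1 : ℝ)} = (Set.Ioi (⟨a, h0, h1⟩ : unitInterval)) ×ˢ Set.univ := by
    ext l
    simp [Set.mem_prod, ← Subtype.coe_lt_coe]
  rw [e, Measure.real]
  unfold nu
  rw [Measure.prod_prod, unitInterval.volume_Ioi, measure_univ, mul_one,
    ENNReal.toReal_ofReal (by simpa using h1)]

lemma nu_Ioc {a b : ℝ} (h0 : 0 ≤ a) (hab : a ≤ b) (h1 : b ≤ 1) :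
    nu.real {l : Lab | a < (l.1 : ℝ) ∧ (l.1 : ℝ) ≤ b} = b - a := by
  have e : {l : Lab | a < (l.1 : ℝ) ∧ (l.1 : ℝ) ≤ b}
      = (Set.Ioc (⟨a, h0, hab.trans h1⟩ : unitInterval) ⟨b, h0.trans hab, h1⟩) ×ˢ Set.univ := by
    ext l
    simp [Set.mem_prod, ← Subtype.coe_lt_coe, ← Subtype.coe_le_coe]
  rw [e, Measure.real]
  unfold nu
  rw [Measure.prod_prod, unitInterval.volume_Ioc, measure_univ, mul_one,
    ENNReal.toReal_ofReal (by simpa using hab)]

lemma measurableSet_gt (a : ℝ) : MeasurableSet {l : Lab | a < (l.1 : ℝ)} :=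
  measurableSet_lt measurable_const (measurable_subtype_coe.comp measurable_fst)

/-- Uncoloured at time `a`. -/
def US (n : ℕ) (a : ℝ) : Set TT := {L | a < (M n L).1}
/-- Coloured with `k` at time `a`. -/
def CS (n : ℕ) (a : ℝ) (k : Fin 3) : Set TT := {L | (M n L).1 ≤ a ∧ (M n L).2 = k}

noncomputable def pp (n : ℕ) (a : ℝ) : ℝ := mu.real (US n a)

lemma measurableSet_US (n : ℕ) (a : ℝ) : MeasurableSet (US n a) :=
  measurableSet_lt measurable_const (measurable_M n).fst

lemma measurableSet_CS (n : ℕ) (a : ℝ) (k : Fin 3) : MeasurableSet (CS n a k) :=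
  (measurableSet_le (measurable_M n).fst measurable_const).inter
    ((measurable_M n).snd (measurableSet_singleton k))

/-- Rotation of all colours. -/
def rot (L : TT) : TT := fun v => ((L v).1, (L v).2 + 1)

lemma nu_rot : nu.map (fun l : Lab => (l.1, l.2 + 1)) = nu := by
  have := (MeasurePreserving.id (volume : Measure unitInterval)).prod unif_rot
  exact this.map_eq

lemma measurePreserving_rot : MeasurePreserving rot mu mu := by
  have hm : Measurable (fun l : Lab => (l.1, l.2 + 1)) :=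
    measurable_fst.prodMk ((measurable_of_finite (fun c : Fin 3 => c + 1)).comp measurable_snd)
  refine ⟨measurable_pi_iff.2 fun v => hm.comp (measurable_pi_apply v), ?_⟩
  have := Measure.infinitePi_map_pi (fun _ : List (Fin 3) => nu)
    (f := fun _ (l : Lab) => (l.1, l.2 + 1)) (fun _ => hm)
  simp only [nu_rot] at this
  exact this

lemma M_rot (n : ℕ) (L : TT) : M n (rot L) = ((M n L).1, (M n L).2 + 1) := by
  induction n generalizing L with
  | zero => rfl
  | succ n ih =>
    rw [M_succ, M_succ]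
    have h : ∀ i, M n (br i (rot L)) = ((M n (br i L)).1, (M n (br i L)).2 + 1) :=
      fun i => ih (br i L)
    simp only [h]
    exact F_rot (L []) (fun i => M n (br i L))

lemma CS_rot (n : ℕ) (a : ℝ) (k : Fin 3) : mu.real (CS n a (k + 1)) = mu.real (CS n a k) := by
  have h := measurePreserving_rot.measure_preimage (measurableSet_CS n a (k + 1)).nullMeasurableSet
  simp only [Measure.real]
  rw [← h]
  congr 2
  ext L
  simp only [CS, Set.mem_preimage, Set.mem_ofPred_eq, M_rot, add_left_inj]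

lemma CS_law (n : ℕ) (a : ℝ) (k : Fin 3) : mu.real (CS n a k) = (1 - pp n a) / 3 := by
  have h1 := CS_rot n a 0
  have h2 := CS_rot n a 1
  simp only [zero_add, Fin.isValue, Fin.reduceAdd] at h1 h2
  have hU : (US n a)ᶜ = CS n a 0 ∪ (CS n a 1 ∪ CS n a 2) := by
    ext L
    simp only [US, CS, Set.mem_compl_iff, Set.mem_ofPred_eq, not_lt, Set.mem_union]
    constructor
    · intro h
      generalize (M n L).2 = c
      fin_cases c <;> simp [h]
    · rintro (h | h | h) <;> exact h.1
  have hd1 : Disjoint (CS n a 1) (CS n a 2) := by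
    rw [Set.disjoint_left]
    rintro L ⟨-, h⟩ ⟨-, h'⟩
    rw [h] at h'; exact absurd h' (by decide)
  have hd0 : Disjoint (CS n a 0) (CS n a 1 ∪ CS n a 2) := by
    rw [Set.disjoint_left]
    rintro L ⟨-, h⟩ (⟨-, h'⟩ | ⟨-, h'⟩) <;>
    · rw [h] at h'; exact absurd h' (by decide)
  have h3 : mu.real (US n a)ᶜ = mu.real (CS n a 0) + (mu.real (CS n a 1) + mu.real (CS n a 2)) := by
    rw [hU, measureReal_union hd0 ((measurableSet_CS n a 1).union (measurableSet_CS n a 2)),
      measureReal_union hd1 (measurableSet_CS n a 2)]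
  rw [measureReal_compl (measurableSet_US n a), probReal_univ] at h3
  have h4 : mu.real (US n a) = pp n a := rfl
  rw [h4] at h3
  fin_cases k
  · simp only [Fin.zero_eta]; linarith
  · simp only [Fin.mk_one]; linarith
  · simp only [Fin.reduceFinMk]; linarith

lemma pp_nonneg (n : ℕ) (a : ℝ) : 0 ≤ pp n a := measureReal_nonneg
lemma pp_le_one (n : ℕ) (a : ℝ) : pp n a ≤ 1 := by
  unfold pp
  exact measureReal_le_one

lemma not_two_iff {ι : Type*} (m : ι → Msg) (a : ℝ) :
    ¬ Two m a ↔ ∃ k, ∀ i, (a < (m i).1 ∨ ((m i).1 ≤ a ∧ (m i).2 = k)) := by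
  constructor
  · intro h
    by_cases h1 : ∃ j, (m j).1 ≤ a
    · obtain ⟨j, hj⟩ := h1
      refine ⟨(m j).2, fun i => ?_⟩
      rcases lt_or_ge a (m i).1 with hi | hi
      · exact Or.inl hi
      · right
        refine ⟨hi, ?_⟩
        by_contra hne
        exact h ⟨i, j, hi, hj, hne⟩
    · push Not at h1
      exact ⟨0, fun i => Or.inl (h1 i)⟩
  · rintro ⟨k, hk⟩ ⟨i, j, hi, hj, hij⟩
    rcases hk i with h | h
    · exact absurd hi (not_le.mpr h)
    rcases hk j with h' | h'
    · exact absurd hj (not_le.mpr h')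
    exact hij (h.2.trans h'.2.symm)

/-- The recursion for the density of uncoloured vertices. -/
lemma pp_succ (n : ℕ) {a : ℝ} (h0 : 0 ≤ a) (h1 : a ≤ 1) : pp (n + 1) a = (1 - a) * g (pp n a) := by
  set T : Set Lab := {l : Lab | a < (l.1 : ℝ)} with hTdef
  have hT : MeasurableSet T := measurableSet_gt a
  set p := pp n a with hp
  have ha2 : a < 2 := by linarith
  let H : Fin 3 → Set TT := fun k => {L | L [] ∈ T ∧ ∀ i, br i L ∈ US n a ∪ CS n a k}
  let H' : Set TT := {L | L [] ∈ T ∧ ∀ i, br i L ∈ US n a}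
  have hbrU : ∀ i, MeasurableSet {L : TT | br i L ∈ US n a} :=
    fun i => (measurable_br i) (measurableSet_US n a)
  have hTm : MeasurableSet {L : TT | L [] ∈ T} := (measurable_pi_apply (X := fun _ => Lab) []) hT
  have hHm : ∀ k, MeasurableSet (H k) := by
    intro k
    have : H k = {L : TT | L [] ∈ T} ∩ ⋂ i, {L | br i L ∈ US n a ∪ CS n a k} := by
      ext L; simp [H]
    rw [this]
    exact hTm.inter (MeasurableSet.iInter fun i =>
      (measurable_br i) ((measurableSet_US n a).union (measurableSet_CS n a k)))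
  have hH'm : MeasurableSet H' := by
    have : H' = {L : TT | L [] ∈ T} ∩ ⋂ i, {L | br i L ∈ US n a} := by
      ext L; simp [H']
    rw [this]
    exact hTm.inter (MeasurableSet.iInter fun i => hbrU i)
  have hU : US (n + 1) a = (H 0 ∪ H 1) ∪ H 2 := by
    ext L
    have e1 : L ∈ US (n + 1) a ↔ (a < ((L []).1 : ℝ) ∧ ¬ Two (fun i => M n (br i L)) a) := by
      change a < (M (n + 1) L).1 ↔ _
      rw [M_succ, ← not_le, F_le_iff _ _ ha2, not_or, not_le]
    rw [e1, not_two_iff]
    constructor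
    · rintro ⟨hl, k, hk⟩
      have : L ∈ H k := ⟨hl, fun i => hk i⟩
      fin_cases k
      · exact Or.inl (Or.inl this)
      · exact Or.inl (Or.inr this)
      · exact Or.inr this
    · rintro ((h | h) | h)
      · exact ⟨h.1, 0, fun i => h.2 i⟩
      · exact ⟨h.1, 1, fun i => h.2 i⟩
      · exact ⟨h.1, 2, fun i => h.2 i⟩
  have hdis : ∀ L i k k', k ≠ k' → br i L ∈ US n a ∪ CS n a k → br i L ∈ US n a ∪ CS n a k' →
      br i L ∈ US n a := by
    intro L i k k' hkk h h'
    rcases h with h | h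
    · exact h
    rcases h' with h' | h'
    · exact h'
    exact absurd (h.2.symm.trans h'.2) hkk
  have hI1 : H 0 ∩ H 1 = H' := by
    ext L
    constructor
    · rintro ⟨h, h'⟩
      exact ⟨h.1, fun i => hdis L i 0 1 (by decide) (h.2 i) (h'.2 i)⟩
    · intro h
      exact ⟨⟨h.1, fun i => Or.inl (h.2 i)⟩, ⟨h.1, fun i => Or.inl (h.2 i)⟩⟩
  have hI2 : (H 0 ∪ H 1) ∩ H 2 = H' := by
    ext L
    constructor
    · rintro ⟨h | h, h'⟩
      · exact ⟨h.1, fun i => hdis L i 0 2 (by decide) (h.2 i) (h'.2 i)⟩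
      · exact ⟨h.1, fun i => hdis L i 1 2 (by decide) (h.2 i) (h'.2 i)⟩
    · intro h
      exact ⟨Or.inl ⟨h.1, fun i => Or.inl (h.2 i)⟩, ⟨h.1, fun i => Or.inl (h.2 i)⟩⟩
  have hUC : ∀ k, mu.real (US n a ∪ CS n a k) = p + (1 - p) / 3 := by
    intro k
    rw [measureReal_union _ (measurableSet_CS n a k), CS_law]
    · rfl
    · rw [Set.disjoint_left]
      rintro L h ⟨h', -⟩
      exact absurd h' (not_le.mpr h)
  have hTv : nu.real T = 1 - a := nu_gt h0 h1
  have hHv : ∀ k, mu.real (H k) = (1 - a) * (p + (1 - p) / 3) ^ 3 := by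
    intro k
    have := rect_real hT (S := fun _ => US n a ∪ CS n a k)
      (fun _ => (measurableSet_US n a).union (measurableSet_CS n a k))
    rw [Finset.prod_const, hUC k, hTv, Finset.card_univ, Fintype.card_fin] at this
    exact this
  have hH'v : mu.real H' = (1 - a) * p ^ 3 := by
    have := rect_real hT (S := fun _ => US n a) (fun _ => measurableSet_US n a)
    rw [Finset.prod_const, hTv, Finset.card_univ, Fintype.card_fin] at this
    exact this
  have e1 := measureReal_union_add_inter (μ := mu) (s := H 0) (hHm 1)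
  have e2 := measureReal_union_add_inter (μ := mu) (s := H 0 ∪ H 1) (hHm 2)
  rw [hI1, hHv, hHv, hH'v] at e1
  rw [hI2, hHv, hH'v] at e2
  have e3 : pp (n + 1) a = mu.real ((H 0 ∪ H 1) ∪ H 2) := by
    unfold pp; rw [hU]
  rw [e3]
  unfold g
  nlinarith [e1, e2]

end Pool.Agent.Lib.MP_45e1c4_co
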