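import Mathlib
import Pool.Agent.Lib.MP_45e1c4_co.Basic

set_option autoImplicit false

open MeasureTheory

namespace Pool.Agent.Lib.MP_45e1c4_co

/-- The evaluations agree up to time `a` but not up to time `b`. -/
def New (a b : ℝ) (m m' : Msg) : Prop := Ag a m m' ∧ ¬ Ag b m m'

/-- New disagreement, with both evaluations coloured by time `b`, with different colours. -/
def Dif (a b : ℝ) (m m' : Msg) : Prop := New a b m m' ∧ (m.1 ≤ b ∧ m'.1 ≤ b ∧ m.2 ≠ m'.2)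

/-- One of the two evaluations has a colour different from `k` by time `b`. -/
def Q (b : ℝ) (k : Fin 3) (m m' : Msg) : Prop := (m.1 ≤ b ∧ m.2 ≠ k) ∨ (m'.1 ≤ b ∧ m'.2 ≠ k)

def Qd (b : ℝ) (k : Fin 3) (m m' : Msg) : Prop :=
  m.1 ≤ b ∧ m'.1 ≤ b ∧ m.2 ≠ m'.2 ∧ m.2 ≠ k ∧ m'.2 ≠ k

/-- One of the two evaluations changes in the window. -/
def Ch (a b : ℝ) (m m' : Msg) : Prop := (a < m.1 ∧ m.1 ≤ b) ∨ (a < m'.1 ∧ m'.1 ≤ b)

/-- The messages different from `i` show exactly the colour `k` at time `a`. -/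
def Off {ι : Type*} (a : ℝ) (k : Fin 3) (i : ι) (m : ι → Msg) : Prop :=
  (∃ j, j ≠ i ∧ (m j).1 ≤ a) ∧ ∀ j, j ≠ i → (m j).1 ≤ a → (m j).2 = k

section window

variable {ι : Type*} [Fintype ι] [Nonempty ι]

lemma side {a b : ℝ} (hab : a ≤ b) (hb : b < 2) (l : Lab) (m : ι → Msg) (i : ι)
    (h1 : (F l m).1 ≤ b) (h2 : a < (F l m).1) (h3 : b < (l.1 : ℝ))
    (h4 : ∀ j, j ≠ i → (m j).1 ≤ b → (m j).1 ≤ a) :
    ∃ k, Off a k i m ∧ (m i).1 ≤ b ∧ (m i).2 ≠ k ∧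
      ∀ c, Seen m (F l m).1 c ↔ (c = k ∨ c = (m i).2) := by
  have hT : Two m (F l m).1 := by
    rcases (F_le_iff l m (lt_of_le_of_lt h1 hb)).1 le_rfl with h | h
    · exact absurd (h.trans h1) (not_le.mpr h3)
    · exact h
  have ha2 : a < 2 := lt_of_le_of_lt hab hb
  have hnT : ¬ Two m a := fun h => absurd ((F_le_iff l m ha2).2 (Or.inr h)) (not_le.mpr h2)
  have key : ∀ j, (m i).1 ≤ (F l m).1 → (m j).1 ≤ (F l m).1 → (m i).2 ≠ (m j).2 →
      ∃ k, Off a k i m ∧ (m i).1 ≤ b ∧ (m i).2 ≠ k ∧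
      ∀ c, Seen m (F l m).1 c ↔ (c = k ∨ c = (m i).2) := by
    intro j hi hj hij
    have hji : j ≠ i := by rintro rfl; exact hij rfl
    have hja : (m j).1 ≤ a := h4 j hji (hj.trans h1)
    refine ⟨(m j).2, ⟨⟨j, hji, hja⟩, ?_⟩, hi.trans h1, hij, ?_⟩
    · intro j' hj' hj'a
      by_contra hne
      exact hnT ⟨j', j, hj'a, hja, hne⟩
    · intro c
      constructor
      · rintro ⟨r, hr, rfl⟩
        by_cases hri : r = i
        · right; rw [hri]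
        · left
          have hra := h4 r hri (hr.trans h1)
          by_contra hne
          exact hnT ⟨r, j, hra, hja, hne⟩
      · rintro (rfl | rfl)
        · exact ⟨j, hj, rfl⟩
        · exact ⟨i, hi, rfl⟩
  obtain ⟨p, q, hp, hq, hpq⟩ := hT
  by_cases hpi : p = i
  · subst hpi
    exact key q hp hq hpq
  · by_cases hqi : q = i
    · subst hqi
      exact key p hq hp hpq.symm
    · exact absurd ⟨p, q, h4 p hpi (hp.trans h1), h4 q hqi (hq.trans h1), hpq⟩ hnT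

lemma window_aux {a b : ℝ} (hab : a ≤ b) (hb : b < 2) (l : Lab) (m m' : ι → Msg)
    (h : New a b (F l m) (F l m')) :
    (∃ i, ¬ Ag a (m i) (m' i)) ∨
    (∃ i, New a b (m i) (m' i) ∧ (a < (l.1 : ℝ) ∧ (l.1 : ℝ) ≤ b)) ∨
    (∃ i j, j ≠ i ∧ New a b (m i) (m' i) ∧ Ch a b (m j) (m' j)) ∨
    (∃ i, (∀ j, Ag a (m j) (m' j)) ∧ New a b (m i) (m' i) ∧ b < (l.1 : ℝ) ∧
      (∀ j, j ≠ i → (m j).1 ≤ b → (m j).1 ≤ a) ∧
      (∀ j, j ≠ i → (m' j).1 ≤ b → (m' j).1 ≤ a)) := by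
  by_cases hA : ∀ i, Ag a (m i) (m' i)
  swap
  · left; push Not at hA; exact hA
  right
  obtain ⟨i, hi⟩ : ∃ i, ¬ Ag b (m i) (m' i) := by
    by_contra hc
    push Not at hc
    exact h.2 (ag_F l hc)
  have hN : New a b (m i) (m' i) := ⟨hA i, hi⟩
  by_cases hl : a < (l.1 : ℝ) ∧ (l.1 : ℝ) ≤ b
  · left; exact ⟨i, hN, hl⟩
  right
  by_cases hC : ∃ j, j ≠ i ∧ Ch a b (m j) (m' j)
  · left
    obtain ⟨j, hj, hCj⟩ := hC
    exact ⟨i, j, hj, hN, hCj⟩
  right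
  refine ⟨i, hA, hN, ?_, ?_, ?_⟩
  · by_contra hlb
    push Not at hlb
    have hla : (l.1 : ℝ) ≤ a := by
      by_contra hc
      push Not at hc
      exact hl ⟨hc, hlb⟩
    have hF : (F l m).1 ≤ a := le_trans (min_le_left _ _) hla
    exact h.2 (fun _ => h.1 (Or.inl hF))
  · intro j hj hjb
    by_contra hc
    push Not at hc
    exact hC ⟨j, hj, Or.inl ⟨hc, hjb⟩⟩
  · intro j hj hjb
    by_contra hc
    push Not at hc
    exact hC ⟨j, hj, Or.inr ⟨hc, hjb⟩⟩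

omit [Fintype ι] [Nonempty ι] in
lemma Off.of_ag {a : ℝ} {k : Fin 3} {i : ι} {m m' : ι → Msg} (hA : ∀ j, Ag a (m j) (m' j))
    (h : Off a k i m') : Off a k i m := by
  obtain ⟨⟨j, hj, hja⟩, h2⟩ := h
  refine ⟨⟨j, hj, ?_⟩, ?_⟩
  · have := hA j (Or.inr hja)
    rw [this]; exact hja
  · intro j' hj' hj'a
    have := hA j' (Or.inl hj'a)
    rw [this]
    exact h2 j' hj' (by rw [← this]; exact hj'a)

/-- The window lemma for new disagreements. -/
lemma window_new {a b : ℝ} (hab : a ≤ b) (hb : b < 2) (l : Lab) (m m' : ι → Msg)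
    (h : New a b (F l m) (F l m')) :
    (∃ i, ¬ Ag a (m i) (m' i)) ∨
    (∃ i, New a b (m i) (m' i) ∧ (a < (l.1 : ℝ) ∧ (l.1 : ℝ) ≤ b)) ∨
    (∃ i j, j ≠ i ∧ New a b (m i) (m' i) ∧ Ch a b (m j) (m' j)) ∨
    (∃ i k, (New a b (m i) (m' i) ∧ Q b k (m i) (m' i)) ∧ a < (l.1 : ℝ) ∧ Off a k i m) := by
  rcases window_aux hab hb l m m' h with h1 | h1 | h1 | ⟨i, hA, hN, hl, h4, h4'⟩
  · exact Or.inl h1
  · exact Or.inr (Or.inl h1)
  · exact Or.inr (Or.inr (Or.inl h1))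
  right; right; right
  have hle : (F l m).1 ≤ b ∨ (F l m').1 ≤ b := by
    by_contra hc
    exact h.2 (fun h' => absurd h' hc)
  have hne : F l m ≠ F l m' := fun he => h.2 (fun _ => he)
  rcases hle with hle | hle
  · have h2 : a < (F l m).1 := by
      by_contra hc
      push Not at hc
      exact hne (h.1 (Or.inl hc))
    obtain ⟨k, hO, hi1, hi2, -⟩ := side hab hb l m i hle h2 hl h4
    exact ⟨i, k, ⟨hN, Or.inl ⟨hi1, hi2⟩⟩, lt_of_le_of_lt hab hl, hO⟩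
  · have h2 : a < (F l m').1 := by
      by_contra hc
      push Not at hc
      exact hne (h.1 (Or.inr hc))
    obtain ⟨k, hO, hi1, hi2, -⟩ := side hab hb l m' i hle h2 hl h4'
    exact ⟨i, k, ⟨hN, Or.inr ⟨hi1, hi2⟩⟩, lt_of_le_of_lt hab hl, hO.of_ag hA⟩

/-- The window lemma for new disagreements with two different colours. -/
lemma window_dif {a b : ℝ} (hab : a ≤ b) (hb : b < 2) (l : Lab) (m m' : ι → Msg)
    (h : Dif a b (F l m) (F l m')) :
    (∃ i, ¬ Ag a (m i) (m' i)) ∨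
    (∃ i, New a b (m i) (m' i) ∧ (a < (l.1 : ℝ) ∧ (l.1 : ℝ) ≤ b)) ∨
    (∃ i j, j ≠ i ∧ New a b (m i) (m' i) ∧ Ch a b (m j) (m' j)) ∨
    (∃ i k, (New a b (m i) (m' i) ∧ Qd b k (m i) (m' i)) ∧ a < (l.1 : ℝ) ∧ Off a k i m) := by
  obtain ⟨h, hle, hle', hcol⟩ := h
  rcases window_aux hab hb l m m' h with h1 | h1 | h1 | ⟨i, hA, hN, hl, h4, h4'⟩
  · exact Or.inl h1
  · exact Or.inr (Or.inl h1)
  · exact Or.inr (Or.inr (Or.inl h1))
  right; right; right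
  have hne : F l m ≠ F l m' := fun he => h.2 (fun _ => he)
  have h2 : a < (F l m).1 := by
    by_contra hc
    push Not at hc
    exact hne (h.1 (Or.inl hc))
  have h2' : a < (F l m').1 := by
    by_contra hc
    push Not at hc
    exact hne (h.1 (Or.inr hc))
  obtain ⟨k, hO, hi1, hi2, hS⟩ := side hab hb l m i hle h2 hl h4
  obtain ⟨k', hO', hi1', hi2', hS'⟩ := side hab hb l m' i hle' h2' hl h4'
  have hkk : k = k' := by
    obtain ⟨⟨j, hj, hja⟩, hj2⟩ := hO'.of_ag hA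
    rw [← hj2 j hj hja, hO.2 j hj hja]
  subst hkk
  refine ⟨i, k, ⟨hN, hi1, hi1', ?_, hi2, hi2'⟩, lt_of_le_of_lt hab hl, hO⟩
  intro he
  apply hcol
  change pick l.2 (Seen m (F l m).1) = pick l.2 (Seen m' (F l m').1)
  apply pick_congr
  intro c
  rw [hS c, hS' c, he]

end window

end Pool.Agent.Lib.MP_45e1c4_co
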