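import Mathlib
import Pool.Agent.Lib.MP_45e1c4_co.Law
import Pool.Agent.Lib.MP_45e1c4_co.Window

set_option autoImplicit false

open MeasureTheory

namespace Pool.Agent.Lib.MP_45e1c4_co

/-- The set of labelings where the pair of evaluations of depth `n`, `n+1` is in the relation. -/
def PS (n : ℕ) (R : Msg → Msg → Prop) : Set TT := {L | R (M n L) (M (n + 1) L)}

/-- A measurable relation. -/
def MR (R : Msg → Msg → Prop) : Prop := MeasurableSet {q : Msg × Msg | R q.1 q.2}

lemma measurableSet_PS (n : ℕ) {R : Msg → Msg → Prop} (hR : MR R) : MeasurableSet (PS n R) :=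
  ((measurable_M n).prodMk (measurable_M (n + 1))) hR

lemma MR.and {R R' : Msg → Msg → Prop} (h : MR R) (h' : MR R') :
    MR (fun m m' => R m m' ∧ R' m m') := MeasurableSet.inter h h'

lemma MR.or {R R' : Msg → Msg → Prop} (h : MR R) (h' : MR R') :
    MR (fun m m' => R m m' ∨ R' m m') := MeasurableSet.union h h'

lemma MR.not {R : Msg → Msg → Prop} (h : MR R) :
    MR (fun m m' => ¬ R m m') := MeasurableSet.compl h

lemma MR_le1 (a : ℝ) : MR (fun m _ => m.1 ≤ a) :=
  measurableSet_le measurable_fst.fst measurable_const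

lemma MR_le2 (a : ℝ) : MR (fun _ m' => m'.1 ≤ a) :=
  measurableSet_le measurable_snd.fst measurable_const

lemma MR_lt1 (a : ℝ) : MR (fun m _ => a < m.1) :=
  measurableSet_lt measurable_const measurable_fst.fst

lemma MR_lt2 (a : ℝ) : MR (fun _ m' => a < m'.1) :=
  measurableSet_lt measurable_const measurable_snd.fst

lemma MR_c1 (k : Fin 3) : MR (fun m _ => m.2 = k) :=
  measurable_fst.snd (measurableSet_singleton k)

lemma MR_c2 (k : Fin 3) : MR (fun _ m' => m'.2 = k) :=
  measurable_snd.snd (measurableSet_singleton k)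

lemma MR_eqc : MR (fun m m' => m.2 = m'.2) :=
  measurableSet_eq_fun measurable_fst.snd measurable_snd.snd

lemma MR_eq : MR (fun m m' => m = m') :=
  measurableSet_eq_fun measurable_fst measurable_snd

lemma MR_Ag (a : ℝ) : MR (Ag a) := by
  have : MR (fun m m' => ¬ (m.1 ≤ a ∨ m'.1 ≤ a) ∨ m = m') :=
    ((MR_le1 a).or (MR_le2 a)).not.or MR_eq
  convert this using 4
  unfold Ag
  rw [imp_iff_not_or]

lemma MR_New (a b : ℝ) : MR (New a b) := (MR_Ag a).and (MR_Ag b).not

lemma MR_Dif (a b : ℝ) : MR (Dif a b) :=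
  (MR_New a b).and ((MR_le1 b).and ((MR_le2 b).and MR_eqc.not))

lemma MR_Q (b : ℝ) (k : Fin 3) : MR (Q b k) :=
  ((MR_le1 b).and (MR_c1 k).not).or ((MR_le2 b).and (MR_c2 k).not)

lemma MR_Qd (b : ℝ) (k : Fin 3) : MR (Qd b k) :=
  (MR_le1 b).and ((MR_le2 b).and (MR_eqc.not.and ((MR_c1 k).not.and (MR_c2 k).not)))

lemma MR_Ch (a b : ℝ) : MR (Ch a b) :=
  ((MR_lt1 a).and (MR_le1 b)).or ((MR_lt2 a).and (MR_le2 b))

lemma meas2 {T : Set Lab} (hT : MeasurableSet T) (i : Fin 3) {A : Set TT}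
    (hA : MeasurableSet A) :
    mu.real {L | L [] ∈ T ∧ br i L ∈ A} = nu.real T * mu.real A := by
  have h := rect_real hT (S := fun j => if j = i then A else Set.univ) (by
    intro j; split_ifs
    · exact hA
    · exact MeasurableSet.univ)
  have h2 : ∏ j, mu.real ((fun j => if j = i then A else Set.univ) j) = mu.real A := by
    rw [Finset.prod_eq_single i]
    · simp
    · intro j _ hj; simp [hj]
    · simp
  rw [h2] at h
  rw [← h]
  congr 1
  ext L
  simp only [Set.mem_ofPred_eq]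
  constructor
  · rintro ⟨h1, h2⟩
    refine ⟨h1, fun j => ?_⟩
    by_cases hj : j = i
    · subst hj; simpa using h2
    · simp [hj]
  · rintro ⟨h1, h2⟩
    exact ⟨h1, by simpa using h2 i⟩

lemma meas1 (i : Fin 3) {A : Set TT} (hA : MeasurableSet A) :
    mu.real {L | br i L ∈ A} = mu.real A := by
  have := meas2 (T := Set.univ) MeasurableSet.univ i hA
  simpa using this

lemma meas3 {i j : Fin 3} (hij : j ≠ i) {A B : Set TT}
    (hA : MeasurableSet A) (hB : MeasurableSet B) :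
    mu.real {L | br i L ∈ A ∧ br j L ∈ B} = mu.real A * mu.real B := by
  have h := rect_real (T := Set.univ) MeasurableSet.univ
    (S := fun l => if l = i then A else if l = j then B else Set.univ) (by
    intro j; split_ifs
    · exact hA
    · exact hB
    · exact MeasurableSet.univ)
  have h2 : ∏ l, mu.real ((fun l => if l = i then A else if l = j then B else Set.univ) l)
      = mu.real A * mu.real B := by
    rw [Finset.prod_eq_mul i j hij.symm]
    · simp [hij]
    · intro l _ hl; simp [hl.1, hl.2]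
    · simp
    · simp
  rw [h2, probReal_univ, one_mul] at h
  rw [← h]
  congr 1
  ext L
  simp only [Set.mem_ofPred_eq, Set.mem_univ, true_and]
  constructor
  · rintro ⟨h1, h2⟩
    intro l
    by_cases hl : l = i
    · subst hl; simpa using h1
    · by_cases hl' : l = j
      · subst hl'; simpa [hl] using h2
      · simp [hl, hl']
  · intro h2
    exact ⟨by simpa using h2 i, by simpa [hij] using h2 j⟩

/-- The events where the branches other than `i` show exactly the colour `k`. -/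
lemma off_bound {T : Set Lab} (hT : MeasurableSet T) (n : ℕ) (a : ℝ) (k : Fin 3) (i : Fin 3)
    {A : Set TT} (hA : MeasurableSet A) :
    mu.real {L | L [] ∈ T ∧ br i L ∈ A ∧ Off a k i (fun j => M n (br j L))}
      ≤ nu.real T * mu.real A *
        (2 * (pp n a * ((1 - pp n a) / 3)) + ((1 - pp n a) / 3) ^ 2) := by
  have hU := measurableSet_US n a
  have hC := measurableSet_CS n a k
  have eU : mu.real (US n a) = pp n a := rfl
  have eC : mu.real (CS n a k) = (1 - pp n a) / 3 := CS_law n a k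
  have key : ∀ (X Y Z : Set TT), mu.real (X ∪ Y ∪ Z) ≤ mu.real X + mu.real Y + mu.real Z := by
    intro X Y Z
    have h1 := measureReal_union_le (μ := mu) (X ∪ Y) Z
    have h2 := measureReal_union_le (μ := mu) X Y
    linarith
  have st : ∀ L j, (M n (br j L)).1 ≤ a ∨ br j L ∈ US n a := fun L j => le_or_gt _ _
  fin_cases i
  · have b1 := box3 hT hA hU hC
    have b2 := box3 hT hA hC hU
    have b3 := box3 hT hA hC hC
    rw [eU, eC] at b1 b2
    rw [eC] at b3
    refine le_trans (measureReal_mono ?_) (le_trans (key _ _ _) (le_of_eq (?_ :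
      mu.real {L | L [] ∈ T ∧ br 0 L ∈ A ∧ br 1 L ∈ US n a ∧ br 2 L ∈ CS n a k} +
      mu.real {L | L [] ∈ T ∧ br 0 L ∈ A ∧ br 1 L ∈ CS n a k ∧ br 2 L ∈ US n a} +
      mu.real {L | L [] ∈ T ∧ br 0 L ∈ A ∧ br 1 L ∈ CS n a k ∧ br 2 L ∈ CS n a k} = _)))
    · rintro L ⟨h1, h2, ⟨j, hj, hja⟩, h4⟩
      rcases st L 1 with s1 | s1 <;> rcases st L 2 with s2 | s2
      · exact Or.inr ⟨h1, h2, ⟨s1, h4 1 (by decide) s1⟩, ⟨s2, h4 2 (by decide) s2⟩⟩
      · exact Or.inl (Or.inr ⟨h1, h2, ⟨s1, h4 1 (by decide) s1⟩, s2⟩)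
      · exact Or.inl (Or.inl ⟨h1, h2, s1, ⟨s2, h4 2 (by decide) s2⟩⟩)
      · exfalso
        fin_cases j
        · exact hj rfl
        · exact absurd hja (not_le.mpr s1)
        · exact absurd hja (not_le.mpr s2)
    · rw [b1, b2, b3]; ring
  · have b1 := box3 hT hU hA hC
    have b2 := box3 hT hC hA hU
    have b3 := box3 hT hC hA hC
    rw [eU, eC] at b1 b2
    rw [eC] at b3
    refine le_trans (measureReal_mono ?_) (le_trans (key _ _ _) (le_of_eq (?_ :
      mu.real {L | L [] ∈ T ∧ br 0 L ∈ US n a ∧ br 1 L ∈ A ∧ br 2 L ∈ CS n a k} +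
      mu.real {L | L [] ∈ T ∧ br 0 L ∈ CS n a k ∧ br 1 L ∈ A ∧ br 2 L ∈ US n a} +
      mu.real {L | L [] ∈ T ∧ br 0 L ∈ CS n a k ∧ br 1 L ∈ A ∧ br 2 L ∈ CS n a k} = _)))
    · rintro L ⟨h1, h2, ⟨j, hj, hja⟩, h4⟩
      rcases st L 0 with s1 | s1 <;> rcases st L 2 with s2 | s2
      · exact Or.inr ⟨h1, ⟨s1, h4 0 (by decide) s1⟩, h2, ⟨s2, h4 2 (by decide) s2⟩⟩
      · exact Or.inl (Or.inr ⟨h1, ⟨s1, h4 0 (by decide) s1⟩, h2, s2⟩)
      · exact Or.inl (Or.inl ⟨h1, s1, h2, ⟨s2, h4 2 (by decide) s2⟩⟩)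
      · exfalso
        fin_cases j
        · exact absurd hja (not_le.mpr s1)
        · exact hj rfl
        · exact absurd hja (not_le.mpr s2)
    · rw [b1, b2, b3]; ring
  · have b1 := box3 hT hU hC hA
    have b2 := box3 hT hC hU hA
    have b3 := box3 hT hC hC hA
    rw [eU, eC] at b1 b2
    rw [eC] at b3
    refine le_trans (measureReal_mono ?_) (le_trans (key _ _ _) (le_of_eq (?_ :
      mu.real {L | L [] ∈ T ∧ br 0 L ∈ US n a ∧ br 1 L ∈ CS n a k ∧ br 2 L ∈ A} +
      mu.real {L | L [] ∈ T ∧ br 0 L ∈ CS n a k ∧ br 1 L ∈ US n a ∧ br 2 L ∈ A} +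
      mu.real {L | L [] ∈ T ∧ br 0 L ∈ CS n a k ∧ br 1 L ∈ CS n a k ∧ br 2 L ∈ A} = _)))
    · rintro L ⟨h1, h2, ⟨j, hj, hja⟩, h4⟩
      rcases st L 0 with s1 | s1 <;> rcases st L 1 with s2 | s2
      · exact Or.inr ⟨h1, ⟨s1, h4 0 (by decide) s1⟩, ⟨s2, h4 1 (by decide) s2⟩, h2⟩
      · exact Or.inl (Or.inr ⟨h1, ⟨s1, h4 0 (by decide) s1⟩, s2, h2⟩)
      · exact Or.inl (Or.inl ⟨h1, s1, ⟨s2, h4 1 (by decide) s2⟩, h2⟩)
      · exfalso
        fin_cases j
        · exact absurd hja (not_le.mpr s1)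
        · exact absurd hja (not_le.mpr s2)
        · exact hj rfl
    · rw [b1, b2, b3]; ring

end Pool.Agent.Lib.MP_45e1c4_co
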