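import Mathlib
import Pool.Agent.Lib.MP_45e1c4_co.Step

set_option autoImplicit false

open MeasureTheory

namespace Pool.Agent.Lib.MP_45e1c4_co

/-- Disagreement by time `a`. -/
noncomputable def ee (n : ℕ) (a : ℝ) : ℝ := mu.real (PS n (fun m m' => ¬ Ag a m m'))
/-- New disagreement. -/
noncomputable def nn (n : ℕ) (a b : ℝ) : ℝ := mu.real (PS n (New a b))
noncomputable def cc (n : ℕ) (a b : ℝ) : ℝ := mu.real (PS n (Ch a b))
/-- Weighted new disagreement. -/
noncomputable def ww (n : ℕ) (a b : ℝ) : ℝ :=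
  mu.real (PS n (New a b)) + 2 * mu.real (PS n (Dif a b))
/-- The error term. -/
noncomputable def RR (n : ℕ) (a b : ℝ) : ℝ :=
  3 * ee n a + 3 * ((b - a) * nn n a b) + 6 * (nn n a b * cc n a b)

/-- General bound from the window lemmas. -/
lemma step_general (n : ℕ) {a b : ℝ} (h0 : 0 ≤ a) (hab : a ≤ b) (h1 : b ≤ 1)
    (S : Set TT) (K : Fin 3 → Msg → Msg → Prop) (hK : ∀ k, MR (K k))
    (hS : ∀ L ∈ S,
      (∃ i, ¬ Ag a (M n (br i L)) (M (n + 1) (br i L))) ∨
      (∃ i, New a b (M n (br i L)) (M (n + 1) (br i L)) ∧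
        (a < ((L []).1 : ℝ) ∧ ((L []).1 : ℝ) ≤ b)) ∨
      (∃ i j, j ≠ i ∧ New a b (M n (br i L)) (M (n + 1) (br i L)) ∧
        Ch a b (M n (br j L)) (M (n + 1) (br j L))) ∨
      (∃ i k, (New a b (M n (br i L)) (M (n + 1) (br i L)) ∧
        K k (M n (br i L)) (M (n + 1) (br i L))) ∧ a < ((L []).1 : ℝ) ∧
        Off a k i (fun j => M n (br j L)))) :
    mu.real S ≤ RR n a b + 3 * ((1 - a) *
      (2 * (pp n a * ((1 - pp n a) / 3)) + ((1 - pp n a) / 3) ^ 2) *
      ∑ k, mu.real (PS n (fun m m' => New a b m m' ∧ K k m m'))) := by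
  set r2 := (2 * (pp n a * ((1 - pp n a) / 3)) + ((1 - pp n a) / 3) ^ 2) with hr2
  let T : Set Lab := {l : Lab | a < (l.1 : ℝ)}
  let T' : Set Lab := {l : Lab | a < (l.1 : ℝ) ∧ (l.1 : ℝ) ≤ b}
  have hT : MeasurableSet T := measurableSet_gt a
  have hT' : MeasurableSet T' := by
    have : T' = T ∩ {l : Lab | b < (l.1 : ℝ)}ᶜ := by
      ext l; simp [T, T']
    rw [this]
    exact hT.inter (measurableSet_gt b).compl
  have mA : MeasurableSet (PS n (fun m m' => ¬ Ag a m m')) := measurableSet_PS n (MR_Ag a).not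
  have mN : MeasurableSet (PS n (New a b)) := measurableSet_PS n (MR_New a b)
  have mC : MeasurableSet (PS n (Ch a b)) := measurableSet_PS n (MR_Ch a b)
  have mK : ∀ k, MeasurableSet (PS n (fun m m' => New a b m m' ∧ K k m m')) :=
    fun k => measurableSet_PS n ((MR_New a b).and (hK k))
  let E1 : Fin 3 → Set TT := fun i => {L | br i L ∈ PS n (fun m m' => ¬ Ag a m m')}
  let E2 : Fin 3 → Set TT := fun i => {L | L [] ∈ T' ∧ br i L ∈ PS n (New a b)}
  let E3 : Fin 3 × Fin 3 → Set TT := fun p =>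
    {L | p.2 ≠ p.1 ∧ br p.1 L ∈ PS n (New a b) ∧ br p.2 L ∈ PS n (Ch a b)}
  let E4 : Fin 3 × Fin 3 → Set TT := fun p =>
    {L | L [] ∈ T ∧ br p.1 L ∈ PS n (fun m m' => New a b m m' ∧ K p.2 m m') ∧
      Off a p.2 p.1 (fun j => M n (br j L))}
  have hsub : S ⊆ ((⋃ i, E1 i) ∪ (⋃ i, E2 i)) ∪ ((⋃ p, E3 p) ∪ (⋃ p, E4 p)) := by
    intro L hL
    rcases hS L hL with ⟨i, h⟩ | ⟨i, h, h'⟩ | ⟨i, j, hij, h, h'⟩ | ⟨i, k, h, h', h''⟩
    · exact Or.inl (Or.inl (Set.mem_iUnion.2 ⟨i, h⟩))
    · exact Or.inl (Or.inr (Set.mem_iUnion.2 ⟨i, h', h⟩))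
    · exact Or.inr (Or.inl (Set.mem_iUnion.2 ⟨(i, j), hij, h, h'⟩))
    · exact Or.inr (Or.inr (Set.mem_iUnion.2 ⟨(i, k), h', h, h''⟩))
  have b1 : mu.real (⋃ i, E1 i) ≤ 3 * ee n a := by
    refine (measureReal_iUnion_fintype_le _).trans (le_of_eq ?_)
    simp only [E1, meas1 _ mA]
    simp [ee]
  have b2 : mu.real (⋃ i, E2 i) ≤ 3 * ((b - a) * nn n a b) := by
    refine (measureReal_iUnion_fintype_le _).trans (le_of_eq ?_)
    simp only [E2, meas2 hT' _ mN]
    rw [show nu.real T' = b - a from nu_Ioc h0 hab h1]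
    simp [nn]
  have b3 : mu.real (⋃ p, E3 p) ≤ 6 * (nn n a b * cc n a b) := by
    refine (measureReal_iUnion_fintype_le _).trans ?_
    have hp : ∀ p : Fin 3 × Fin 3, mu.real (E3 p) =
        if p.2 ≠ p.1 then nn n a b * cc n a b else 0 := by
      intro p
      split_ifs with hp
      · have := meas3 (i := p.1) (j := p.2) hp mN mC
        have he : E3 p = {L | br p.1 L ∈ PS n (New a b) ∧ br p.2 L ∈ PS n (Ch a b)} := by
          ext L
          simp [E3, hp]
        rw [he]
        exact this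
      · have he : E3 p = ∅ := by
          ext L
          constructor
          · rintro ⟨h, -⟩
            exact absurd h hp
          · rintro ⟨⟩
        rw [he, measureReal_empty]
    simp only [hp]
    rw [Fintype.sum_prod_type]
    simp only [Fin.sum_univ_three]
    simp
    linarith
  have b4 : mu.real (⋃ p, E4 p) ≤ 3 * ((1 - a) * r2 *
      ∑ k, mu.real (PS n (fun m m' => New a b m m' ∧ K k m m'))) := by
    refine (measureReal_iUnion_fintype_le _).trans ?_
    have hp : ∀ p : Fin 3 × Fin 3, mu.real (E4 p) ≤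
        (1 - a) * mu.real (PS n (fun m m' => New a b m m' ∧ K p.2 m m')) * r2 := by
      intro p
      have := off_bound hT n a p.2 p.1 (mK p.2)
      rw [show nu.real T = 1 - a from nu_gt h0 (hab.trans h1)] at this
      exact this
    refine (Finset.sum_le_sum fun p _ => hp p).trans (le_of_eq ?_)
    rw [Fintype.sum_prod_type]
    simp only [Fin.sum_univ_three]
    ring
  have t1 := measureReal_mono (μ := mu) hsub
  have t2 := measureReal_union_le (μ := mu) ((⋃ i, E1 i) ∪ (⋃ i, E2 i))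
    ((⋃ p, E3 p) ∪ (⋃ p, E4 p))
  have t3 := measureReal_union_le (μ := mu) (⋃ i, E1 i) (⋃ i, E2 i)
  have t4 := measureReal_union_le (μ := mu) (⋃ p, E3 p) (⋃ p, E4 p)
  unfold RR
  linarith

lemma sumQ_pointwise (n : ℕ) (a b : ℝ) (L : TT) :
    ∑ k, ((PS n (fun m m' => New a b m m' ∧ Q b k m m')).indicator (1 : TT → ℝ) L +
      2 * (PS n (fun m m' => New a b m m' ∧ Qd b k m m')).indicator (1 : TT → ℝ) L) ≤
    2 * ((PS n (New a b)).indicator (1 : TT → ℝ) L + 2 * (PS n (Dif a b)).indicator (1 : TT → ℝ) L)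
    := by
  classical
  simp only [Set.indicator_apply, PS, Set.mem_ofPred_eq, Pi.one_apply]
  by_cases hN : New a b (M n L) (M (n + 1) L)
  swap
  · simp [hN, Dif]
  · simp only [hN, true_and, if_true, Dif, Q, Qd]
    have hb := hN.2
    generalize M n L = m at *
    generalize M (n + 1) L = m' at *
    have h3 : m.1 ≤ b ∨ m'.1 ≤ b := by
      by_contra hc
      exact hb (fun h => absurd h hc)
    obtain ⟨t, c⟩ := m
    obtain ⟨t', c'⟩ := m'
    simp only at h3
    by_cases h4 : t ≤ b <;> by_cases h5 : t' ≤ b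
    · fin_cases c <;> fin_cases c' <;> simp [h4, h5, Fin.sum_univ_three] <;> norm_num
    · fin_cases c <;> simp [h4, h5, Fin.sum_univ_three] <;> norm_num
    · fin_cases c' <;> simp [h4, h5, Fin.sum_univ_three] <;> norm_num
    · exact absurd h3 (by simp [h4, h5])

lemma sumQ (n : ℕ) (a b : ℝ) :
    ∑ k, (mu.real (PS n (fun m m' => New a b m m' ∧ Q b k m m')) +
      2 * mu.real (PS n (fun m m' => New a b m m' ∧ Qd b k m m'))) ≤ 2 * ww n a b := by
  have mQ : ∀ k, MeasurableSet (PS n (fun m m' => New a b m m' ∧ Q b k m m')) :=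
    fun k => measurableSet_PS n ((MR_New a b).and (MR_Q b k))
  have mQd : ∀ k, MeasurableSet (PS n (fun m m' => New a b m m' ∧ Qd b k m m')) :=
    fun k => measurableSet_PS n ((MR_New a b).and (MR_Qd b k))
  have mN : MeasurableSet (PS n (New a b)) := measurableSet_PS n (MR_New a b)
  have mD : MeasurableSet (PS n (Dif a b)) := measurableSet_PS n (MR_Dif a b)
  have int : ∀ {S : Set TT}, MeasurableSet S → Integrable (S.indicator (1 : TT → ℝ)) mu :=
    fun hS => (integrable_const (1 : ℝ)).indicator hS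
  let f : Fin 3 → TT → ℝ := fun k L =>
    (PS n (fun m m' => New a b m m' ∧ Q b k m m')).indicator (1 : TT → ℝ) L +
      2 * (PS n (fun m m' => New a b m m' ∧ Qd b k m m')).indicator (1 : TT → ℝ) L
  let f' : TT → ℝ := fun L => (PS n (New a b)).indicator (1 : TT → ℝ) L +
      2 * (PS n (Dif a b)).indicator (1 : TT → ℝ) L
  have hf : ∀ k, Integrable (f k) mu := fun k => (int (mQ k)).add ((int (mQd k)).const_mul 2)
  have hf' : Integrable f' mu := (int mN).add ((int mD).const_mul 2)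
  have key : ∫ L, ∑ k, f k L ∂mu ≤ ∫ L, 2 * f' L ∂mu :=
    integral_mono (integrable_finsetSum _ fun k _ => hf k) (hf'.const_mul 2)
      (sumQ_pointwise n a b)
  have e0 : ∫ L, ∑ k, f k L ∂mu = ∑ k, ∫ L, f k L ∂mu := integral_finsetSum _ fun k _ => hf k
  have e : ∀ k, ∫ L, f k L ∂mu =
      mu.real (PS n (fun m m' => New a b m m' ∧ Q b k m m')) +
      2 * mu.real (PS n (fun m m' => New a b m m' ∧ Qd b k m m')) := by
    intro k
    have h := integral_add (μ := mu) (int (mQ k)) ((int (mQd k)).const_mul 2)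
    rw [integral_const_mul, integral_indicator_one (mQ k), integral_indicator_one (mQd k)] at h
    exact h
  have e' : ∫ L, f' L ∂mu = ww n a b := by
    have h := integral_add (μ := mu) (int mN) ((int mD).const_mul 2)
    rw [integral_const_mul, integral_indicator_one mN, integral_indicator_one mD] at h
    exact h
  rw [e0, integral_const_mul, e'] at key
  simp only [e] at key
  exact key

end Pool.Agent.Lib.MP_45e1c4_co

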