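import Mathlib
import Pool.Agent.Lib.MP_45e1c4_co.Step2

set_option autoImplicit false

open MeasureTheory

namespace Pool.Agent.Lib.MP_45e1c4_co

lemma pp_zero (a : ℝ) (h : a < 2) : pp 0 a = 1 := by
  unfold pp US
  have : {L : TT | a < (M 0 L).1} = Set.univ := by
    ext L; simp [M, h]
  rw [this, probReal_univ]

lemma pp_anti (n : ℕ) {a : ℝ} (h0 : 0 ≤ a) (h1 : a ≤ 1) : pp (n + 1) a ≤ pp n a := by
  induction n with
  | zero => rw [pp_zero a (by linarith)]; exact pp_le_one _ _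
  | succ n ih =>
    have e1 : pp (n + 1 + 1) a = (1 - a) * g (pp (n + 1) a) := pp_succ (n + 1) h0 h1
    have e2 : pp (n + 1) a = (1 - a) * g (pp n a) := pp_succ n h0 h1
    have h2 : (1 - a) * g (pp (n + 1) a) ≤ (1 - a) * g (pp n a) :=
      mul_le_mul_of_nonneg_left (g_mono (pp_nonneg _ _) ih (pp_le_one _ _)) (by linarith)
    linarith

lemma g_le_self (n : ℕ) {a : ℝ} (h0 : 0 ≤ a) (h1 : a ≤ 1) : (1 - a) * g (pp n a) ≤ pp n a := by
  rw [← pp_succ n h0 h1]
  exact pp_anti n h0 h1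

lemma pp_mono (n : ℕ) {a b : ℝ} (hab : a ≤ b) : pp n b ≤ pp n a :=
  measureReal_mono (fun _ h => lt_of_le_of_lt hab h)

/-- Uniform Lipschitz bound. -/
lemma pp_lip (n : ℕ) {a b : ℝ} (h0 : 0 ≤ a) (hab : a ≤ b) (h1 : b ≤ 1) :
    pp n a - pp n b ≤ 20 * (b - a) := by
  induction n with
  | zero => rw [pp_zero a (by linarith), pp_zero b (by linarith)]; linarith
  | succ n ih =>
    have ha1 : a ≤ 1 := hab.trans h1
    have hb0 : 0 ≤ b := h0.trans hab
    rw [pp_succ n h0 ha1, pp_succ n hb0 h1]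
    have c := contr (s := 1 - b) (by linarith) (pp_nonneg n b) (pp_mono n hab) (pp_le_one n a)
      (g_le_self n hb0 h1)
    have g1 := g_le_one (pp_nonneg n a) (pp_le_one n a)
    have g2 : (b - a) * g (pp n a) ≤ (b - a) * 1 :=
      mul_le_mul_of_nonneg_left g1 (by linarith)
    nlinarith

lemma cc_le (n : ℕ) {a b : ℝ} (h0 : 0 ≤ a) (hab : a ≤ b) (h1 : b ≤ 1) :
    cc n a b ≤ 40 * (b - a) := by
  have key : ∀ n, mu.real {L : TT | a < (M n L).1 ∧ (M n L).1 ≤ b} ≤ 20 * (b - a) := by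
    intro n
    have e : {L : TT | a < (M n L).1 ∧ (M n L).1 ≤ b} = US n a \ US n b := by
      ext L
      simp [US]
    have hsub : US n b ⊆ US n a := fun L h => lt_of_le_of_lt hab h
    rw [e, measureReal_sdiff hsub (measurableSet_US n b)]
    exact pp_lip n h0 hab h1
  have h := measureReal_union_le (μ := mu) {L : TT | a < (M n L).1 ∧ (M n L).1 ≤ b}
    {L : TT | a < (M (n + 1) L).1 ∧ (M (n + 1) L).1 ≤ b}
  have e : PS n (Ch a b) = {L : TT | a < (M n L).1 ∧ (M n L).1 ≤ b} ∪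
    {L : TT | a < (M (n + 1) L).1 ∧ (M (n + 1) L).1 ≤ b} := rfl
  unfold cc
  rw [e]
  have := key n
  have := key (n + 1)
  linarith

lemma nn_nonneg (n : ℕ) (a b : ℝ) : 0 ≤ nn n a b := measureReal_nonneg
lemma ee_nonneg (n : ℕ) (a : ℝ) : 0 ≤ ee n a := measureReal_nonneg
lemma cc_nonneg (n : ℕ) (a b : ℝ) : 0 ≤ cc n a b := measureReal_nonneg
lemma ww_nonneg (n : ℕ) (a b : ℝ) : 0 ≤ ww n a b :=
  add_nonneg measureReal_nonneg (mul_nonneg (by norm_num) measureReal_nonneg)
lemma nn_le_ww (n : ℕ) (a b : ℝ) : nn n a b ≤ ww n a b := by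
  have : 0 ≤ mu.real (PS n (Dif a b)) := measureReal_nonneg
  unfold nn ww
  linarith

lemma ww_succ (n : ℕ) {a b : ℝ} (h0 : 0 ≤ a) (hab : a ≤ b) (h1 : b ≤ 1)
    (hw : b - a ≤ 1 / 30000) : ww (n + 1) a b ≤ 39 / 40 * ww n a b + 9 * ee n a := by
  have hb2 : b < 2 := by linarith
  have s1 := step_general n h0 hab h1 (PS (n + 1) (New a b)) (Q b) (MR_Q b) (fun L hL =>
    window_new hab hb2 (L []) (fun i => M n (br i L)) (fun i => M (n + 1) (br i L)) hL)
  have s2 := step_general n h0 hab h1 (PS (n + 1) (Dif a b)) (Qd b) (MR_Qd b) (fun L hL =>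
    window_dif hab hb2 (L []) (fun i => M n (br i L)) (fun i => M (n + 1) (br i L)) hL)
  have s3 := sumQ n a b
  rw [Finset.sum_add_distrib, ← Finset.mul_sum] at s3
  set X := ∑ k, mu.real (PS n (fun m m' => New a b m m' ∧ Q b k m m')) with hX
  set Y := ∑ k, mu.real (PS n (fun m m' => New a b m m' ∧ Qd b k m m')) with hY
  set p := pp n a with hp
  have hp0 : 0 ≤ p := pp_nonneg n a
  have hp1 : p ≤ 1 := pp_le_one n a
  have ha1 : a ≤ 1 := hab.trans h1
  have c' := contr' hp0 hp1 (g_le_self n h0 ha1) (by linarith)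
  have hr2 : 0 ≤ (1 - a) * (2 * (p * ((1 - p) / 3)) + ((1 - p) / 3) ^ 2) := by
    apply mul_nonneg (by linarith)
    have : 0 ≤ p * ((1 - p) / 3) := mul_nonneg hp0 (by linarith)
    positivity
  have hW := ww_nonneg n a b
  have hN := nn_nonneg n a b
  have hNW := nn_le_ww n a b
  have hC := cc_le n h0 hab h1
  have hC0 := cc_nonneg n a b
  have m1 : (1 - a) * (2 * (p * ((1 - p) / 3)) + ((1 - p) / 3) ^ 2) * (X + 2 * Y)
      ≤ (1 - a) * (2 * (p * ((1 - p) / 3)) + ((1 - p) / 3) ^ 2) * (2 * ww n a b) :=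
    mul_le_mul_of_nonneg_left s3 hr2
  have e2 : (1 - a) * (2 * (p * ((1 - p) / 3)) + ((1 - p) / 3) ^ 2)
      = 1 / 6 * ((1 - a) * (2 / 3 * (1 - p) * (1 + 5 * p))) := by ring
  have m2 : (1 - a) * (2 * (p * ((1 - p) / 3)) + ((1 - p) / 3) ^ 2) * (2 * ww n a b)
      ≤ 1 / 6 * (19 / 20) * (2 * ww n a b) := by
    rw [e2]
    apply mul_le_mul_of_nonneg_right _ (by linarith)
    linarith
  have hba : 0 ≤ b - a := by linarith
  have m3 : (b - a) * nn n a b ≤ 1 / 30000 * ww n a b :=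
    mul_le_mul hw hNW hN (by norm_num)
  have m4 : nn n a b * cc n a b ≤ ww n a b * (40 * (1 / 30000)) := by
    apply mul_le_mul hNW _ hC0 hW
    linarith
  have hRR : RR n a b ≤ 3 * ee n a + 3 * (1 / 30000 * ww n a b)
      + 6 * (ww n a b * (40 * (1 / 30000))) := by
    unfold RR; linarith
  have hfin : ww (n + 1) a b ≤ 3 * RR n a b + 3 * ((1 - a) *
      (2 * (p * ((1 - p) / 3)) + ((1 - p) / 3) ^ 2) * (X + 2 * Y)) := by
    unfold ww
    linarith
  linarith

lemma ee_le (n : ℕ) (a b : ℝ) : ee n b ≤ ee n a + ww n a b := by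
  have h : PS n (fun m m' => ¬ Ag b m m') ⊆ PS n (fun m m' => ¬ Ag a m m') ∪ PS n (New a b) := by
    intro L hL
    by_cases h : Ag a (M n L) (M (n + 1) L)
    · exact Or.inr ⟨h, hL⟩
    · exact Or.inl h
  have h1 := measureReal_mono (μ := mu) h
  have h2 := measureReal_union_le (μ := mu) (PS n (fun m m' => ¬ Ag a m m')) (PS n (New a b))
  have h3 := nn_le_ww n a b
  unfold nn at h3
  unfold ee
  linarith

lemma pp_at_zero (n : ℕ) : pp n 0 = 1 := by
  induction n with
  | zero => exact pp_zero 0 (by norm_num)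
  | succ n ih => rw [pp_succ n le_rfl (by norm_num), ih, g_one]; norm_num

lemma ee_zero (n : ℕ) : ee n 0 = 0 := by
  have key : ∀ n, mu.real (US n 0)ᶜ = 0 := by
    intro n
    rw [measureReal_compl (measurableSet_US n 0), probReal_univ]
    have : mu.real (US n 0) = 1 := pp_at_zero n
    rw [this]; norm_num
  have h : PS n (fun m m' => ¬ Ag 0 m m') ⊆ (US n 0)ᶜ ∪ (US (n + 1) 0)ᶜ := by
    intro L hL
    by_contra hc
    apply hL
    intro h1
    exfalso
    apply hc
    rcases h1 with h1 | h1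
    · exact Or.inl (fun h => absurd h1 (not_le.mpr h))
    · exact Or.inr (fun h => absurd h1 (not_le.mpr h))
  have h1 := measureReal_mono (μ := mu) h
  have h2 := measureReal_union_le (μ := mu) (US n 0)ᶜ (US (n + 1) 0)ᶜ
  rw [key n, key (n + 1)] at h2
  exact le_antisymm (by unfold ee; linarith) (ee_nonneg n 0)

lemma summable_ee (k : ℕ) (hk : k ≤ 30000) : Summable (fun n => ee n ((k : ℝ) / 30000)) := by
  induction k with
  | zero => simp [ee_zero, summable_zero]
  | succ k ih =>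
    have hs := ih (by omega)
    set a : ℝ := (k : ℝ) / 30000 with ha
    set b : ℝ := ((k + 1 : ℕ) : ℝ) / 30000 with hb
    have h0 : 0 ≤ a := by positivity
    have hba : b - a = 1 / 30000 := by rw [ha, hb]; push_cast; ring
    have hab : a ≤ b := by linarith
    have h1 : b ≤ 1 := by
      rw [hb, div_le_one (by norm_num)]
      exact_mod_cast hk
    have hw : Summable (fun n => ww n a b) :=
      summable_of_rec (fun n => ww_nonneg n a b) (fun n => ee_nonneg n a)
        (by norm_num : (39 / 40 : ℝ) < 1) (by norm_num : (0 : ℝ) ≤ 9)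
        (fun n => ww_succ n h0 hab h1 hba.le) hs
    exact Summable.of_nonneg_of_le (fun n => ee_nonneg n b) (fun n => ee_le n a b) (hs.add hw)

lemma M_succ_le_one (n : ℕ) (L : TT) : (M (n + 1) L).1 ≤ 1 := F_fst_le_one _ _

/-- The finite-depth evaluations converge: the probabilities of disagreement are summable. -/
theorem summable_ne : Summable (fun n => mu.real {L | M n L ≠ M (n + 1) L}) := by
  have h := summable_ee 30000 le_rfl
  have e : ((30000 : ℕ) : ℝ) / 30000 = 1 := by norm_num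
  rw [e] at h
  refine Summable.of_nonneg_of_le (fun n => measureReal_nonneg) (fun n => ?_) h
  exact measureReal_mono (fun L hL hA => hL (hA (Or.inr (M_succ_le_one n L))))

end Pool.Agent.Lib.MP_45e1c4_co
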