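import Mathlib
import Pool.Agent.Lib.MP_45e1c4_co.Summ
import Pool.Agent.Lib.MP_45e1c4_co.Proper

set_option autoImplicit false

open MeasureTheory

namespace Pool.Agent.Lib.MP_45e1c4_co

/-- The four directions. -/
abbrev Dir := Fin 2 × Bool

/-- The inverse direction. -/
def iv (s : Dir) : Dir := (s.1, !s.2)

lemma iv_iv (s : Dir) : iv (iv s) = s := by
  simp [iv]

/-- An enumeration of the directions different from `s`. -/
def en (s : Dir) : Fin 3 → Dir := ![(s.1, !s.2), (s.1 + 1, true), (s.1 + 1, false)]

lemma en_inj : ∀ s, Function.Injective (en s) := by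
  unfold en Function.Injective
  decide

lemma en_ne : ∀ s j, en s j ≠ s := by
  unfold en
  decide

lemma en_surj : ∀ s r, r ≠ s → ∃ j, en s j = r := by
  unfold en
  decide

abbrev FG := FreeGroup (Fin 2)

def gen (s : Dir) : FG := FreeGroup.mk [s]

lemma gen_mul_gen_iv (s : Dir) : gen s * gen (iv s) = 1 := by
  have h : (FreeGroup.mk [s] : FG)⁻¹ = FreeGroup.mk [iv s] := by
    rw [FreeGroup.inv_mk]
    rfl
  unfold gen
  rw [← h, mul_inv_cancel]

/-- The word of a vertex of the branch avoiding the direction `s`. -/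
def wd : Dir → List (Fin 3) → List Dir
  | _, [] => []
  | s, j :: v => en s j :: wd (iv (en s j)) v

lemma wd_inj (s : Dir) : Function.Injective (wd s) := by
  intro v
  induction v generalizing s with
  | nil =>
    intro v' h
    cases v' with
    | nil => rfl
    | cons j v' => exact absurd h (by simp [wd])
  | cons i v ih =>
    intro v' h
    cases v' with
    | nil => exact absurd h (by simp [wd])
    | cons j v' =>
      simp only [wd, List.cons.injEq] at h
      have hij := en_inj s h.1
      subst hij
      rw [ih _ h.2]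

lemma wd_head (s : Dir) (v : List (Fin 3)) : ∀ r ∈ (wd s v).head?, r ≠ s := by
  cases v with
  | nil => simp [wd]
  | cons j v => simpa [wd] using en_ne s j

lemma wd_reduced (s : Dir) (v : List (Fin 3)) : FreeGroup.IsReduced (wd s v) := by
  induction v generalizing s with
  | nil => simp [wd, FreeGroup.IsReduced]
  | cons j v ih =>
    have h1 := ih (iv (en s j))
    have h2 := wd_head (iv (en s j)) v
    unfold FreeGroup.IsReduced at *
    simp only [wd]
    rw [List.isChain_cons]
    refine ⟨?_, h1⟩
    intro r hr h3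
    have h4 := h2 r hr
    by_contra h5
    apply h4
    unfold iv
    refine Prod.ext h3.symm ?_
    simp only
    cases h6 : (en s j).2 <;> cases h7 : r.2 <;> simp_all

lemma cons_wd_reduced (s : Dir) (v : List (Fin 3)) : FreeGroup.IsReduced (s :: wd (iv s) v) := by
  have h1 := wd_reduced (iv s) v
  have h2 := wd_head (iv s) v
  unfold FreeGroup.IsReduced at *
  rw [List.isChain_cons]
  refine ⟨?_, h1⟩
  intro r hr h3
  have h4 := h2 r hr
  by_contra h5
  apply h4
  unfold iv
  refine Prod.ext h3.symm ?_
  simp only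
  cases h6 : s.2 <;> cases h7 : r.2 <;> simp_all

/-- The vertex of the branch avoiding the direction `s`. -/
def phi (s : Dir) (v : List (Fin 3)) : FG := FreeGroup.mk (wd s v)

lemma phi_cons (s : Dir) (j : Fin 3) (v : List (Fin 3)) :
    phi s (j :: v) = gen (en s j) * phi (iv (en s j)) v := by
  unfold phi gen
  rw [FreeGroup.mul_mk]
  rfl

lemma gen_mul_phi (s : Dir) (v : List (Fin 3)) :
    gen s * phi (iv s) v = FreeGroup.mk (s :: wd (iv s) v) := by
  unfold phi gen
  rw [FreeGroup.mul_mk]
  rfl

lemma mk_inj_of_reduced {L L' : List Dir} (h : FreeGroup.IsReduced L)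
    (h' : FreeGroup.IsReduced L') (he : FreeGroup.mk L = FreeGroup.mk L') : L = L' := by
  have := congrArg FreeGroup.toWord he
  rwa [FreeGroup.toWord_mk, FreeGroup.toWord_mk, h.reduce_eq, h'.reduce_eq] at this

lemma phi_inj (s : Dir) : Function.Injective (phi s) := by
  intro v v' h
  exact wd_inj s (mk_inj_of_reduced (wd_reduced s v) (wd_reduced s v') h)

lemma gphi_inj (s : Dir) : Function.Injective (fun v => gen s * phi (iv s) v) := by
  intro v v' h
  exact phi_inj (iv s) (mul_left_cancel h)

lemma gphi_ne {r r' : Dir} (h : r ≠ r') (v v' : List (Fin 3)) :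
    gen r * phi (iv r) v ≠ gen r' * phi (iv r') v' := by
  rw [gen_mul_phi, gen_mul_phi]
  intro he
  have := mk_inj_of_reduced (cons_wd_reduced r v) (cons_wd_reduced r' v') he
  exact h (List.cons.inj this).1

lemma phi_ne_gphi (s : Dir) (v v' : List (Fin 3)) : phi s v ≠ gen s * phi (iv s) v' := by
  rw [gen_mul_phi]
  intro he
  have h1 := mk_inj_of_reduced (wd_reduced s v) (cons_wd_reduced s v') he
  have h2 := wd_head s v
  rw [h1] at h2
  exact h2 s (by simp) rfl

/-- The shift. -/
def sh (s : Dir) (x : FG → Lab) : FG → Lab := fun d => x (gen s * d)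

/-- The message from the neighbour in direction `s`. -/
noncomputable def msg (n : ℕ) (s : Dir) (x : FG → Lab) : Msg :=
  M n (fun v => x (gen s * phi (iv s) v))

/-- The message to the neighbour in direction `s`. -/
noncomputable def out (n : ℕ) (s : Dir) (x : FG → Lab) : Msg := M n (fun v => x (phi s v))

lemma out_succ (n : ℕ) (s : Dir) (x : FG → Lab) :
    out (n + 1) s x = F (x 1) (fun j => msg n (en s j) x) := by
  unfold out msg
  simp only [M, phi_cons]
  rfl

lemma out_sh (n : ℕ) (s : Dir) (x : FG → Lab) : out n (iv s) (sh s x) = msg n s x := rfl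

lemma msg_sh (n : ℕ) (s : Dir) (x : FG → Lab) : msg n (iv s) (sh s x) = out n s x := by
  unfold msg out sh
  simp only [iv_iv, ← mul_assoc, gen_mul_gen_iv, one_mul]

/-- The colour of the origin in the evaluation of depth `n`. -/
noncomputable def col (n : ℕ) (x : FG → Lab) : Fin 3 := (F (x 1) (fun r : Dir => msg n r x)).2

lemma M_clock (n : ℕ) (L : TT) : (M n L).1 = 2 ∨ ∃ v, (M n L).1 = ((L v).1 : ℝ) := by
  induction n generalizing L with
  | zero => left; rfl
  | succ n ih =>
    rw [M_succ]
    have h1 : (F (L []) (fun i => M n (br i L))).1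
        = min ((L []).1 : ℝ) (sig (fun i => M n (br i L))) := rfl
    rw [h1]
    rcases min_choice ((L []).1 : ℝ) (sig (fun i => M n (br i L))) with h | h
    · right; exact ⟨[], h⟩
    · rw [h]
      obtain ⟨p, -, hp⟩ := Finset.exists_mem_eq_inf' (s := (Finset.univ : Finset (Fin 3 × Fin 3)))
        Finset.univ_nonempty (fun p => if (M n (br p.1 L)).2 ≠ (M n (br p.2 L)).2 then
          max (M n (br p.1 L)).1 (M n (br p.2 L)).1 else 2)
      have h2 : sig (fun i => M n (br i L)) = if (M n (br p.1 L)).2 ≠ (M n (br p.2 L)).2 then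
          max (M n (br p.1 L)).1 (M n (br p.2 L)).1 else 2 := hp
      rw [h2]
      split_ifs with h3
      · rcases max_choice (M n (br p.1 L)).1 (M n (br p.2 L)).1 with h4 | h4
        · rw [h4]
          rcases ih (br p.1 L) with h5 | ⟨v, h5⟩
          · left; exact h5
          · right; exact ⟨p.1 :: v, h5⟩
        · rw [h4]
          rcases ih (br p.2 L) with h5 | ⟨v, h5⟩
          · left; exact h5
          · right; exact ⟨p.2 :: v, h5⟩
      · left; rfl

/-- Properness of the colouring of depth `n` across an edge where the messages have stabilised. -/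
lemma proper_of_stable (n : ℕ) (s : Dir) (x : FG → Lab)
    (hd : ∀ a b : FG, a ≠ b → ((x a).1 : ℝ) ≠ (x b).1)
    (h1 : out n s x = out (n + 1) s x) (h2 : msg n s x = msg (n + 1) s x) :
    col n x ≠ col n (sh s x) := by
  have hd' : ∀ a b : FG, a ≠ b → ((sh s x a).1 : ℝ) ≠ (sh s x b).1 := by
    intro a b hab
    exact hd _ _ (fun h => hab (mul_left_cancel h))
  have tie : ∀ y : FG → Lab, (∀ a b : FG, a ≠ b → ((y a).1 : ℝ) ≠ (y b).1) →
      ∀ i j : Dir, i ≠ j → (msg n i y).1 ≤ 1 → (msg n i y).1 ≠ (msg n j y).1 := by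
    intro y hy i j hij hle he
    rcases M_clock n (fun v => y (gen i * phi (iv i) v)) with h | ⟨v, h⟩
    · have : (msg n i y).1 = 2 := h
      linarith
    · rcases M_clock n (fun v => y (gen j * phi (iv j) v)) with h' | ⟨v', h'⟩
      · have : (msg n j y).1 = 2 := h'
        linarith
      · have e1 : (msg n i y).1 = ((y (gen i * phi (iv i) v)).1 : ℝ) := h
        have e2 : (msg n j y).1 = ((y (gen j * phi (iv j) v')).1 : ℝ) := h'
        rw [e1, e2] at he
        exact hy _ _ (gphi_ne hij v v') he
  have e1 : F (x 1) ((fun r : Dir => msg n r x) ∘ en s) = out (n + 1) s x :=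
    (out_succ n s x).symm
  have e2 : F (sh s x 1) ((fun r : Dir => msg n r (sh s x)) ∘ en (iv s)) = msg (n + 1) s x := by
    rw [← out_sh, out_succ]
    rfl
  apply proper_edge (x 1) (sh s x 1) (e := en s) (e' := en (iv s)) (s := s) (s' := iv s)
    (en_surj s) (en_surj (iv s)) (tie x hd) (tie (sh s x) hd')
  · rw [e2]; exact h2
  · rw [e1]
    change msg n (iv s) (sh s x) = _
    rw [msg_sh]
    exact h1
  · rw [e1, e2]
    intro he
    have l1 : (out (n + 1) s x).1 ≤ 1 := M_succ_le_one n _
    have l2 : (msg (n + 1) s x).1 ≤ 1 := M_succ_le_one n _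
    rcases M_clock (n + 1) (fun v => x (phi s v)) with h | ⟨v, h⟩
    · have : (out (n + 1) s x).1 = 2 := h
      linarith
    · rcases M_clock (n + 1) (fun v => x (gen s * phi (iv s) v)) with h' | ⟨v', h'⟩
      · have : (msg (n + 1) s x).1 = 2 := h'
        linarith
      · have e3 : (out (n + 1) s x).1 = ((x (phi s v)).1 : ℝ) := h
        have e4 : (msg (n + 1) s x).1 = ((x (gen s * phi (iv s) v')).1 : ℝ) := h'
        rw [e3, e4] at he
        exact hd _ _ (phi_ne_gphi s v v') he

end Pool.Agent.Lib.MP_45e1c4_co
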