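import Mathlib
import Pool.Agent.Lib.MP_45e1c4_co.Free

set_option autoImplicit false

open MeasureTheory Filter

namespace Pool.Agent.Lib.MP_45e1c4_co

noncomputable def PP : Measure (FG → Lab) := Measure.infinitePi (fun _ : FG => nu)

instance : IsProbabilityMeasure PP := by unfold PP; infer_instance

instance : Countable FG := by
  unfold FG FreeGroup
  infer_instance

lemma nu_fiber (t : unitInterval) : nu {l : Lab | t = l.1} = 0 := by
  have e : {l : Lab | t = l.1} = ({t} : Set unitInterval) ×ˢ Set.univ := by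
    ext l
    simp [Set.mem_prod, eq_comm]
  rw [e]
  unfold nu
  rw [Measure.prod_prod]
  simp

lemma ae_distinct : ∀ᵐ x ∂PP, ∀ a b : FG, a ≠ b → ((x a).1 : ℝ) ≠ (x b).1 := by
  rw [ae_all_iff]
  intro a
  rw [ae_all_iff]
  intro b
  by_cases hab : a = b
  · exact Eventually.of_forall fun x h => absurd hab h
  have h1 : PP.map (fun x => (x a, x b)) = nu.prod nu :=
    Measure.infinitePi_map_eval_prod (P := fun _ : FG => nu) hab
  have hm : MeasurableSet {q : Lab × Lab | q.1.1 = q.2.1} :=
    measurableSet_eq_fun measurable_fst.fst measurable_snd.fst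
  have h2 : (nu.prod nu) {q : Lab × Lab | q.1.1 = q.2.1} = 0 := by
    rw [Measure.measure_prod_null hm]
    exact Eventually.of_forall fun l => nu_fiber l.1
  rw [← h1, Measure.map_apply (by fun_prop) hm] at h2
  have h3 : ∀ᵐ x ∂PP, ¬ ((x a).1 = (x b).1) := by
    rw [ae_iff]
    simpa using h2
  filter_upwards [h3] with x hx _ h
  exact hx (Subtype.ext h)

lemma map_inj {f : List (Fin 3) → FG} (hf : Function.Injective f) :
    PP.map (fun x v => x (f v)) = mu :=
  Measure.map_infinitePi_infinitePi_of_inj (P := fun _ : FG => nu) hf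

lemma ae_stable {f : List (Fin 3) → FG} (hf : Function.Injective f) :
    ∀ᵐ x ∂PP, ∀ᶠ n in atTop, M n (fun v => x (f v)) = M (n + 1) (fun v => x (f v)) := by
  have hm : Measurable (fun (x : FG → Lab) (v : List (Fin 3)) => x (f v)) := by fun_prop
  have hS : ∀ n, MeasurableSet {L : TT | M n L ≠ M (n + 1) L} := fun n =>
    (measurableSet_eq_fun (measurable_M n) (measurable_M (n + 1))).compl
  have h1 : ∀ n, PP ((fun (x : FG → Lab) (v : List (Fin 3)) => x (f v)) ⁻¹'
      {L : TT | M n L ≠ M (n + 1) L}) = ENNReal.ofReal (mu.real {L | M n L ≠ M (n + 1) L}) := by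
    intro n
    rw [← Measure.map_apply hm (hS n), map_inj hf, ofReal_measureReal]
  have h2 := ae_eventually_notMem (μ := PP) (s := fun n =>
      (fun (x : FG → Lab) (v : List (Fin 3)) => x (f v)) ⁻¹' {L : TT | M n L ≠ M (n + 1) L}) (by
    simp only [h1]
    exact summable_ne.tsum_ofReal_ne_top)
  filter_upwards [h2] with x hx
  filter_upwards [hx] with n hn
  by_contra hc
  exact hn hc

lemma eventually_const {α : Type*} {u : ℕ → α} (h : ∀ᶠ n in atTop, u n = u (n + 1)) :
    ∃ c, ∀ᶠ n in atTop, u n = c := by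
  obtain ⟨N, hN⟩ := eventually_atTop.1 h
  refine ⟨u N, eventually_atTop.2 ⟨N, fun n hn => ?_⟩⟩
  induction n, hn using Nat.le_induction with
  | base => rfl
  | succ n hn ih => rw [← hN n hn, ih]

/-- The limiting colour. -/
noncomputable def lim (x : FG → Lab) : Fin 3 :=
  open Classical in
  if ∀ᶠ n in atTop, col n x = 0 then 0 else if ∀ᶠ n in atTop, col n x = 1 then 1 else 2

lemma measurable_col (n : ℕ) : Measurable (col n) := by
  unfold col
  refine (measurable_F (measurable_pi_apply 1) (measurable_pi_iff.2 fun r => ?_)).snd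
  exact (measurable_M n).comp (measurable_pi_iff.2 fun v => measurable_pi_apply _)

lemma measurableSet_ev (k : Fin 3) : MeasurableSet {x | ∀ᶠ n in atTop, col n x = k} := by
  have : {x | ∀ᶠ n in atTop, col n x = k} = ⋃ N, ⋂ n ≥ N, {x | col n x = k} := by
    ext x
    simp only [Set.mem_ofPred_eq, eventually_atTop, Set.mem_iUnion, Set.mem_iInter]
  rw [this]
  exact MeasurableSet.iUnion fun N => MeasurableSet.iInter fun n => MeasurableSet.iInter fun _ =>
    (measurable_col n) (measurableSet_singleton k)

lemma measurable_lim : Measurable lim := by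
  classical
  unfold lim
  refine Measurable.ite ?_ measurable_const (Measurable.ite ?_ measurable_const measurable_const)
  · exact measurableSet_ev 0
  · exact measurableSet_ev 1

lemma lim_eq {x : FG → Lab} {c : Fin 3} (h : ∀ᶠ n in atTop, col n x = c) : lim x = c := by
  classical
  have huniq : ∀ c', (∀ᶠ n in atTop, col n x = c') → c' = c := by
    intro c' h'
    obtain ⟨n, h1, h2⟩ := (h'.and h).exists
    rw [← h1, h2]
  unfold lim
  split_ifs with h0 h1
  · exact huniq 0 h0
  · exact huniq 1 h1
  · fin_cases c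
    · exact absurd h h0
    · exact absurd h h1
    · rfl

lemma ae_msg : ∀ᵐ x ∂PP, ∀ r, ∀ᶠ n in atTop, msg n r x = msg (n + 1) r x := by
  rw [ae_all_iff]
  intro r
  exact ae_stable (gphi_inj r)

lemma ae_out : ∀ᵐ x ∂PP, ∀ r, ∀ᶠ n in atTop, out n r x = out (n + 1) r x := by
  rw [ae_all_iff]
  intro r
  exact ae_stable (phi_inj r)

lemma col_const {x : FG → Lab} (h : ∀ r, ∀ᶠ n in atTop, msg n r x = msg (n + 1) r x) :
    ∃ c, ∀ᶠ n in atTop, col n x = c := by
  choose c hc using fun r => eventually_const (h r)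
  refine ⟨(F (x 1) c).2, ?_⟩
  filter_upwards [eventually_all.2 hc] with n hn
  unfold col
  have : (fun r => msg n r x) = c := funext hn
  rw [this]

lemma sh_mp (s : Dir) : MeasurePreserving (sh s) PP PP := by
  refine ⟨measurable_pi_iff.2 fun d => measurable_pi_apply _, ?_⟩
  exact Measure.map_infinitePi_infinitePi_of_inj (P := fun _ : FG => nu)
    (f := fun d : FG => gen s * d) (fun a b h => mul_left_cancel h)

theorem main_lab (s : Dir) : ∀ᵐ x ∂PP, lim x ≠ lim (sh s x) := by
  filter_upwards [ae_distinct, ae_msg, ae_out, (sh_mp s).quasiMeasurePreserving.ae ae_msg]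
    with x hd hm ho hm'
  obtain ⟨c, hc⟩ := col_const hm
  obtain ⟨c', hc'⟩ := col_const hm'
  rw [lim_eq hc, lim_eq hc']
  obtain ⟨n, ⟨⟨h1, h2⟩, h3⟩, h4⟩ := (((ho s).and (hm s)).and hc |>.and hc').exists
  rw [← h3, ← h4]
  exact proper_of_stable n s x hd h1 h2

theorem main : ∃ c : (FreeGroup (Fin 2) → unitInterval) → Fin 3,
      Measurable c ∧
      ∀ i : Fin 2,
        ∀ᵐ x ∂(Measure.infinitePi
                (fun _ : FreeGroup (Fin 2) => (volume : Measure unitInterval))),
          c x ≠ c (fun δ => x (FreeGroup.of i * δ)) := by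
  obtain ⟨f, hf, hmap⟩ := Measure.exists_measurable_map_eq nu
  have hΦ : Measurable (fun (x : FG → unitInterval) (d : FG) => f (x d)) := by fun_prop
  refine ⟨fun x => lim (fun d => f (x d)), measurable_lim.comp hΦ, fun i => ?_⟩
  have h1 : (Measure.infinitePi (fun _ : FG => (volume : Measure unitInterval))).map
      (fun x d => f (x d)) = PP := by
    rw [Measure.infinitePi_map_pi (fun _ : FG => (volume : Measure unitInterval))
      (f := fun _ => f) (fun _ => hf)]
    simp only [hmap]
    rfl
  have h2 := main_lab (i, true)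
  rw [← h1] at h2
  exact ae_of_ae_map hΦ.aemeasurable h2

end Pool.Agent.Lib.MP_45e1c4_co
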