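import Mathlib
import Pool.Agent.Lib.MP_45e1c4_co.Main

set_option autoImplicit false

open MeasureTheory Filter

namespace Pool.Agent.Lib.MP_45e1c4_co

/-- The update depends only on the set of messages. -/
lemma F_congr_range {ι κ : Type*} [Fintype ι] [Nonempty ι] [Fintype κ] [Nonempty κ] (l : Lab)
    (m : ι → Msg) (m' : κ → Msg) (h : ∀ i, ∃ j, m i = m' j) (h' : ∀ j, ∃ i, m i = m' j) :
    F l m = F l m' := by
  refine F_eq_of_agree l m m' (s := (F l m).1) ?_ ?_ le_rfl
  · intro s' _ _
    constructor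
    · rintro ⟨i, j, hi, hj, hij⟩
      obtain ⟨i', ei⟩ := h i
      obtain ⟨j', ej⟩ := h j
      exact ⟨i', j', by rwa [← ei], by rwa [← ej], by rwa [← ei, ← ej]⟩
    · rintro ⟨i, j, hi, hj, hij⟩
      obtain ⟨i', ei⟩ := h' i
      obtain ⟨j', ej⟩ := h' j
      exact ⟨i', j', by rwa [ei], by rwa [ej], by rwa [ei, ej]⟩
  · intro s' _ k
    constructor
    · rintro ⟨i, hi, hk⟩
      obtain ⟨i', ei⟩ := h i
      exact ⟨i', by rwa [← ei], by rwa [← ei]⟩
    · rintro ⟨i, hi, hk⟩
      obtain ⟨i', ei⟩ := h' i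
      exact ⟨i', by rwa [ei], by rwa [ei]⟩

/-- The message leaving the vertex `g` in the direction `r` in the evaluation of depth `n`. -/
noncomputable def dm (x : FG → Lab) : ℕ → FG → Dir → Msg
  | 0, g, _ => (2, (x g).2)
  | n + 1, g, r => F (x g) (fun j => dm x n (g * gen (en r j)) (iv (en r j)))

lemma dm_eq_M (x : FG → Lab) (n : ℕ) (g : FG) (r : Dir) :
    dm x n g r = M n (fun v => x (g * phi r v)) := by
  induction n generalizing g r with
  | zero =>
    have : phi r [] = 1 := rfl
    simp only [dm, M, this, mul_one]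
  | succ n ih =>
    have h0 : phi r [] = 1 := rfl
    simp only [dm, M, h0, mul_one]
    congr 1
    funext j
    rw [ih]
    congr 1
    funext v
    rw [phi_cons, mul_assoc]

/-- The colour of the vertex `g` in the evaluation of depth `n`. -/
noncomputable def colg (n : ℕ) (x : FG → Lab) (g : FG) : Fin 3 :=
  (F (x g) (fun r : Dir => dm x n (g * gen r) (iv r))).2

lemma col_eq_colg (n : ℕ) (x : FG → Lab) : col n x = colg n x 1 := by
  unfold col colg msg
  congr 2
  funext r
  rw [dm_eq_M, one_mul]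

lemma gen_inj {r t : Dir} (h : gen r = gen t) : r = t := by
  have h1 : FreeGroup.IsReduced [r] := by unfold FreeGroup.IsReduced; simp
  have h2 : FreeGroup.IsReduced [t] := by unfold FreeGroup.IsReduced; simp
  have := mk_inj_of_reduced h1 h2 h
  simpa using this

/-- Adjacency in the Cayley graph. -/
def AdjC (g h : FG) : Prop := ∃ r : Dir, h = g * gen r

section aut

variable {σ : FG ≃ FG} (hσ : ∀ g h, AdjC g h ↔ AdjC (σ g) (σ h))

include hσ

lemma adj_image (g : FG) (r : Dir) : ∃ t, σ (g * gen r) = σ g * gen t :=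
  (hσ g (g * gen r)).1 ⟨r, rfl⟩

lemma adj_preimage (g : FG) (t : Dir) : ∃ r, σ (g * gen r) = σ g * gen t := by
  have h : AdjC (σ g) (σ (σ.symm (σ g * gen t))) := ⟨t, by simp⟩
  obtain ⟨r, hr⟩ := (hσ _ _).2 h
  refine ⟨r, ?_⟩
  rw [← hr]
  simp

omit hσ in
lemma back (g : FG) (r : Dir) : g * gen r * gen (iv r) = g := by
  rw [mul_assoc, gen_mul_gen_iv, mul_one]

lemma dm_aut (x : FG → Lab) (n : ℕ) (g : FG) (r r' : Dir) (h : σ (g * gen r) = σ g * gen r') :
    dm (x ∘ σ) n g r = dm x n (σ g) r' := by
  induction n generalizing g r r' with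
  | zero => rfl
  | succ n ih =>
    simp only [dm]
    have step : ∀ t t' : Dir, σ (g * gen t) = σ g * gen t' →
        dm (x ∘ σ) n (g * gen t) (iv t) = dm x n (σ g * gen t') (iv t') := by
      intro t t' ht
      rw [← ht]
      apply ih
      rw [back, ht, back]
    apply F_congr_range
    · intro i
      obtain ⟨t', ht'⟩ := adj_image hσ g (en r i)
      have hne : t' ≠ r' := by
        rintro rfl
        rw [← h] at ht'
        exact en_ne r i (gen_inj (mul_left_cancel (σ.injective ht')))
      obtain ⟨j, rfl⟩ := en_surj r' t' hne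
      exact ⟨j, step _ _ ht'⟩
    · intro j
      obtain ⟨t, ht⟩ := adj_preimage hσ g (en r' j)
      have hne : t ≠ r := by
        rintro rfl
        rw [h] at ht
        exact en_ne r' j (gen_inj (mul_left_cancel ht)).symm
      obtain ⟨i, rfl⟩ := en_surj r t hne
      exact ⟨i, step _ _ ht⟩

lemma colg_aut (x : FG → Lab) (n : ℕ) (g : FG) : colg n (x ∘ σ) g = colg n x (σ g) := by
  unfold colg
  have step : ∀ t t' : Dir, σ (g * gen t) = σ g * gen t' →
      dm (x ∘ σ) n (g * gen t) (iv t) = dm x n (σ g * gen t') (iv t') := by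
    intro t t' ht
    rw [← ht]
    apply dm_aut hσ
    rw [back, ht, back]
  congr 1
  apply F_congr_range
  · intro t
    obtain ⟨t', ht'⟩ := adj_image hσ g t
    exact ⟨t', step _ _ ht'⟩
  · intro t'
    obtain ⟨t, ht⟩ := adj_preimage hσ g t'
    exact ⟨t, step _ _ ht⟩

end aut

lemma col_trans (x : FG → Lab) (n : ℕ) (g : FG) : col n (fun d => x (g * d)) = colg n x g := by
  have h : ∀ a b : FG, AdjC a b ↔ AdjC (Equiv.mulLeft g a) (Equiv.mulLeft g b) := by
    intro a b
    unfold AdjC
    constructor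
    · rintro ⟨r, rfl⟩
      exact ⟨r, by simp [mul_assoc]⟩
    · rintro ⟨r, hr⟩
      refine ⟨r, ?_⟩
      simp only [Equiv.coe_mulLeft, mul_assoc] at hr
      exact mul_left_cancel hr
  rw [col_eq_colg]
  have h1 := colg_aut h x n 1
  have h2 : Equiv.mulLeft g (1 : FG) = g := by simp
  rw [h2] at h1
  exact h1

lemma col_aut {σ : FG ≃ FG} (hσ : ∀ g h, AdjC g h ↔ AdjC (σ g) (σ h)) (x : FG → Lab) (n : ℕ)
    (g : FG) : col n (fun d => x (σ (g * d))) = col n (fun d => x (σ g * d)) := by
  rw [col_trans x n (σ g), ← colg_aut hσ x n g, ← col_trans (x ∘ σ) n g]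
  rfl

lemma lim_congr {x y : FG → Lab} (h : ∀ n, col n x = col n y) : lim x = lim y := by
  classical
  have e0 : (∀ᶠ n in atTop, col n x = 0) = (∀ᶠ n in atTop, col n y = 0) := by
    congr 1
    funext n
    rw [h n]
  have e1 : (∀ᶠ n in atTop, col n x = 1) = (∀ᶠ n in atTop, col n y = 1) := by
    congr 1
    funext n
    rw [h n]
  unfold lim
  congr 1
  simp only [e1]

/-- Equivariance of the colouring under all automorphisms of the tree. -/
lemma lim_aut {σ : FG ≃ FG} (hσ : ∀ g h, AdjC g h ↔ AdjC (σ g) (σ h)) (x : FG → Lab) (g : FG) :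
    lim (fun d => x (σ (g * d))) = lim (fun d => x (σ g * d)) :=
  lim_congr fun n => col_aut hσ x n g

/-- Rotation of the colours. -/
def rotx (x : FG → Lab) : FG → Lab := fun d => ((x d).1, (x d).2 + 1)

lemma rotx_mp : MeasurePreserving rotx PP PP := by
  have hm : Measurable (fun l : Lab => (l.1, l.2 + 1)) :=
    measurable_fst.prodMk ((measurable_of_finite (fun c : Fin 3 => c + 1)).comp measurable_snd)
  refine ⟨measurable_pi_iff.2 fun d => hm.comp (measurable_pi_apply d), ?_⟩
  unfold PP
  have := Measure.infinitePi_map_pi (fun _ : FG => nu) (f := fun _ l => ((l.1, l.2 + 1) : Lab))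
    (fun _ => hm)
  simp only [nu_rot] at this
  exact this

lemma col_rotx (n : ℕ) (x : FG → Lab) : col n (rotx x) = col n x + 1 := by
  unfold col
  have h : (fun r : Dir => msg n r (rotx x)) = fun r => ((msg n r x).1, (msg n r x).2 + 1) := by
    funext r
    exact M_rot n _
  rw [h]
  have := F_rot (x 1) (fun r : Dir => msg n r x)
  exact congrArg Prod.snd this

lemma ae_lim_rotx : ∀ᵐ x ∂PP, lim (rotx x) = lim x + 1 := by
  filter_upwards [ae_msg] with x hx
  obtain ⟨c, hc⟩ := col_const hx
  rw [lim_eq hc]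
  apply lim_eq
  filter_upwards [hc] with n hn
  rw [col_rotx, hn]

lemma PP_lim_succ (k : Fin 3) : PP.real {x | lim x = k + 1} = PP.real {x | lim x = k} := by
  have hS : ∀ k, MeasurableSet {x | lim x = k} := fun k =>
    measurable_lim (measurableSet_singleton k)
  have h1 : PP.real (rotx ⁻¹' {x | lim x = k + 1}) = PP.real {x | lim x = k + 1} :=
    rotx_mp.measureReal_preimage (hS _).nullMeasurableSet
  rw [← h1]
  apply measureReal_congr
  filter_upwards [ae_lim_rotx] with x hx
  have : (lim (rotx x) = k + 1) = (lim x = k) := by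
    rw [hx]
    simp
  exact this

/-- Every colour has probability one third. -/
lemma PP_lim (k : Fin 3) : PP.real {x | lim x = k} = 1 / 3 := by
  have hS : ∀ k, MeasurableSet {x | lim x = k} := fun k =>
    measurable_lim (measurableSet_singleton k)
  have e1 : PP.real {x | lim x = 1} = PP.real {x | lim x = 0} := PP_lim_succ 0
  have e2 : PP.real {x | lim x = 2} = PP.real {x | lim x = 1} := PP_lim_succ 1
  have h : ∑ k : Fin 3, PP.real {x | lim x = k} = 1 := by
    have := sum_measureReal_preimage_singleton (μ := PP) (s := (Finset.univ : Finset (Fin 3)))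
      (f := lim) (fun k _ => hS k)
    have h2 : (lim ⁻¹' ((Finset.univ : Finset (Fin 3)) : Set (Fin 3))) = Set.univ := by simp
    rw [h2] at this
    rw [show (1 : ℝ) = PP.real Set.univ by simp, ← this]
    rfl
  rw [Fin.sum_univ_three] at h
  fin_cases k
  · change PP.real {x | lim x = 0} = 1 / 3
    linarith
  · change PP.real {x | lim x = 1} = 1 / 3
    linarith
  · change PP.real {x | lim x = 2} = 1 / 3
    linarith

end Pool.Agent.Lib.MP_45e1c4_co
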