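import Mathlib
import Pool.Agent.Lib.MP_45e1c4_co.Equi

set_option autoImplicit false

open MeasureTheory Filter

namespace Pool.Agent.Lib.MP_45e1c4_co

lemma geom_of_rec {w e : ℕ → ℝ} {C : ℝ}
    (hrec : ∀ n, w (n + 1) ≤ 39 / 40 * w n + 9 * e n)
    (hs : ∀ n, e n ≤ C * (99 / 100) ^ n) : ∃ C', ∀ n, w n ≤ C' * (99 / 100) ^ n := by
  refine ⟨max (w 0) (9 * C * (200 / 3)), fun n => ?_⟩
  set D := max (w 0) (9 * C * (200 / 3)) with hD
  have h1 : w 0 ≤ D := le_max_left _ _
  have h2 : 9 * C * (200 / 3) ≤ D := le_max_right _ _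
  induction n with
  | zero => simpa using h1
  | succ n ih =>
    have hp : (0 : ℝ) < (99 / 100) ^ n := by positivity
    have h3 := hrec n
    have h4 := hs n
    have h5 : 9 * C * (99 / 100) ^ n ≤ D * (3 / 200) * (99 / 100) ^ n := by
      apply mul_le_mul_of_nonneg_right _ hp.le
      linarith
    rw [pow_succ]
    nlinarith

lemma geom_ee (k : ℕ) (hk : k ≤ 30000) :
    ∃ C, ∀ n, ee n ((k : ℝ) / 30000) ≤ C * (99 / 100) ^ n := by
  induction k with
  | zero => exact ⟨0, fun n => by simp [ee_zero]⟩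
  | succ k ih =>
    obtain ⟨C, hC⟩ := ih (by omega)
    set a : ℝ := (k : ℝ) / 30000 with ha
    set b : ℝ := ((k + 1 : ℕ) : ℝ) / 30000 with hb
    have h0 : 0 ≤ a := by positivity
    have hba : b - a = 1 / 30000 := by rw [ha, hb]; push_cast; ring
    have hab : a ≤ b := by linarith
    have h1 : b ≤ 1 := by
      rw [hb, div_le_one (by norm_num)]
      exact_mod_cast hk
    obtain ⟨C', hC'⟩ := geom_of_rec (w := fun n => ww n a b) (e := fun n => ee n a)
      (fun n => ww_succ n h0 hab h1 hba.le) hC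
    refine ⟨C + C', fun n => ?_⟩
    have := ee_le n a b
    have h2 := hC n
    have h3 := hC' n
    rw [add_mul]
    linarith

theorem geom_ne : ∃ C, ∀ n, mu.real {L | M n L ≠ M (n + 1) L} ≤ C * (99 / 100) ^ n := by
  obtain ⟨C, h⟩ := geom_ee 30000 le_rfl
  have e : ((30000 : ℕ) : ℝ) / 30000 = 1 := by norm_num
  rw [e] at h
  refine ⟨C, fun n => ?_⟩
  refine le_trans ?_ (h n)
  exact measureReal_mono (fun L hL hA => hL (hA (Or.inr (M_succ_le_one n L))))

/-- The evaluation of depth `n` depends only on the labels of depth at most `n`. -/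
lemma M_local (n : ℕ) (L L' : TT) (h : ∀ v : List (Fin 3), v.length ≤ n → L v = L' v) :
    M n L = M n L' := by
  induction n generalizing L L' with
  | zero => simp only [M]; rw [h [] (by simp)]
  | succ n ih =>
    simp only [M]
    rw [h [] (by simp)]
    congr 1
    funext i
    apply ih
    intro v hv
    exact h (i :: v) (by simpa using hv)

lemma wd_length (s : Dir) (v : List (Fin 3)) : (wd s v).length = v.length := by
  induction v generalizing s with
  | nil => rfl
  | cons j v ih => simp [wd, ih]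

lemma norm_gphi (s : Dir) (v : List (Fin 3)) :
    (gen s * phi (iv s) v).norm ≤ v.length + 1 := by
  rw [gen_mul_phi]
  refine FreeGroup.norm_mk_le.trans ?_
  simp [wd_length]

/-- The colour of the origin in the evaluation of depth `n` depends only on the ball of radius
`n + 1`. -/
lemma col_local (n : ℕ) (x y : FG → Lab) (h : ∀ d : FG, d.norm ≤ n + 1 → x d = y d) :
    col n x = col n y := by
  unfold col
  have h1 : x 1 = y 1 := h 1 (by simp)
  have h2 : (fun r : Dir => msg n r x) = fun r : Dir => msg n r y := by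
    funext r
    unfold msg
    apply M_local
    intro v hv
    exact h _ ((norm_gphi r v).trans (by omega))
  rw [h1, h2]

lemma msg_ne (n : ℕ) (r : Dir) :
    PP.real {x | msg n r x ≠ msg (n + 1) r x} = mu.real {L | M n L ≠ M (n + 1) L} := by
  have hm : Measurable (fun (x : FG → Lab) (v : List (Fin 3)) => x (gen r * phi (iv r) v)) := by
    fun_prop
  have hS : MeasurableSet {L : TT | M n L ≠ M (n + 1) L} :=
    (measurableSet_eq_fun (measurable_M n) (measurable_M (n + 1))).compl
  rw [← map_inj (gphi_inj r), map_measureReal_apply hm hS]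
  rfl

lemma col_ne (n : ℕ) :
    PP.real {x | col n x ≠ col (n + 1) x} ≤ 4 * mu.real {L | M n L ≠ M (n + 1) L} := by
  have h : {x | col n x ≠ col (n + 1) x} ⊆ ⋃ r : Dir, {x | msg n r x ≠ msg (n + 1) r x} := by
    intro x hx
    by_contra hc
    apply hx
    have h2 : (fun r : Dir => msg n r x) = fun r : Dir => msg (n + 1) r x := by
      funext r
      by_contra hr
      exact hc (Set.mem_iUnion.2 ⟨r, hr⟩)
    unfold col
    rw [h2]
  refine (measureReal_mono h).trans ((measureReal_iUnion_fintype_le _).trans ?_)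
  simp only [msg_ne]
  simp [Fintype.card_prod, Dir]
  
/-- Exponentially good approximation by colourings which depend on a ball. -/
lemma lim_ne : ∃ C, ∀ n, PP.real {x | col n x ≠ lim x} ≤ C * (99 / 100) ^ n := by
  obtain ⟨C, hC⟩ := geom_ne
  refine ⟨400 * C, fun n => ?_⟩
  have hsub : {x | col n x ≠ lim x} ⊆
      {x | ¬ ∀ r, ∀ᶠ n in atTop, msg n r x = msg (n + 1) r x} ∪
        ⋃ k : ℕ, {x | col (n + k) x ≠ col (n + k + 1) x} := by
    intro x hx
    by_contra hc
    rw [Set.mem_union, not_or] at hc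
    obtain ⟨hc1, hc2⟩ := hc
    have hm : ∀ r, ∀ᶠ n in atTop, msg n r x = msg (n + 1) r x := by
      by_contra h
      exact hc1 h
    obtain ⟨c, hcc⟩ := col_const hm
    have hk : ∀ k, col (n + k) x = col n x := by
      intro k
      induction k with
      | zero => rfl
      | succ k ih =>
        rw [← ih]
        by_contra hne
        exact hc2 (Set.mem_iUnion.2 ⟨k, fun h => hne h.symm⟩)
    apply hx
    obtain ⟨N, hN⟩ := eventually_atTop.1 hcc
    rw [lim_eq hcc, ← hk N]
    exact hN _ (by omega)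
  have hs : Summable (fun k : ℕ => 4 * (C * (99 / 100 : ℝ) ^ (n + k))) := by
    have : (fun k : ℕ => 4 * (C * (99 / 100 : ℝ) ^ (n + k)))
        = fun k : ℕ => (4 * C * (99 / 100 : ℝ) ^ n) * (99 / 100 : ℝ) ^ k := by
      funext k
      rw [pow_add]
      ring
    rw [this]
    exact (summable_geometric_of_lt_one (by norm_num) (by norm_num)).mul_left _
  have hb : ∀ k : ℕ, PP.real {x | col (n + k) x ≠ col (n + k + 1) x}
      ≤ 4 * (C * (99 / 100 : ℝ) ^ (n + k)) := fun k =>
    (col_ne (n + k)).trans (by linarith [hC (n + k)])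
  have hz : PP.real {x | ¬ ∀ r, ∀ᶠ n in atTop, msg n r x = msg (n + 1) r x} = 0 := by
    have := ae_iff.1 ae_msg
    rw [measureReal_def, this]
    rfl
  have hu : PP.real (⋃ k : ℕ, {x | col (n + k) x ≠ col (n + k + 1) x})
      ≤ ∑' k : ℕ, 4 * (C * (99 / 100 : ℝ) ^ (n + k)) := by
    have h1 : PP (⋃ k : ℕ, {x | col (n + k) x ≠ col (n + k + 1) x})
        ≤ ENNReal.ofReal (∑' k : ℕ, 4 * (C * (99 / 100 : ℝ) ^ (n + k))) := by
      rw [ENNReal.ofReal_tsum_of_nonneg (fun k => measureReal_nonneg.trans (hb k)) hs]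
      refine (measure_iUnion_le _).trans (ENNReal.tsum_le_tsum fun k => ?_)
      rw [← ofReal_measureReal]
      exact ENNReal.ofReal_le_ofReal (hb k)
    rw [measureReal_def]
    refine ENNReal.toReal_le_of_le_ofReal ?_ h1
    exact tsum_nonneg fun k => measureReal_nonneg.trans (hb k)
  have hval : ∑' k : ℕ, 4 * (C * (99 / 100 : ℝ) ^ (n + k)) = 400 * C * (99 / 100) ^ n := by
    have : (fun k : ℕ => 4 * (C * (99 / 100 : ℝ) ^ (n + k)))
        = fun k : ℕ => (4 * C * (99 / 100 : ℝ) ^ n) * (99 / 100 : ℝ) ^ k := by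
      funext k
      rw [pow_add]
      ring
    rw [this, tsum_mul_left, tsum_geometric_of_lt_one (by norm_num) (by norm_num)]
    ring
  have h3 := measureReal_mono (μ := PP) hsub
  have h4 := measureReal_union_le (μ := PP)
    {x | ¬ ∀ r, ∀ᶠ n in atTop, msg n r x = msg (n + 1) r x}
    (⋃ k : ℕ, {x | col (n + k) x ≠ col (n + k + 1) x})
  rw [hz] at h4
  linarith

end Pool.Agent.Lib.MP_45e1c4_co
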